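import Pool.Agent.H70.TGS.Targets2

set_option autoImplicit false

open List Pool.Agent.H68.TG

namespace Pool.Agent.H70.TGS

lemma dd_succ (j : ℕ) : dd (j + 1) = 1 :: 2 :: dd j := by
  unfold dd
  rw [replicate_succ, flatten_cons]
  rfl

lemma dd_succ' (j : ℕ) : dd (j + 1) = dd j ++ [1, 2] := by
  unfold dd
  rw [replicate_succ', flatten_append]
  rfl

lemma rep_succ' (i : ℕ) : (replicate (i + 1) (0 : Fin 3)) = replicate i 0 ++ [0] := replicate_succ'

lemma step_cc (a b : Fin 3) (w : List (Fin 3)) : step (a :: b :: w) = w ++ prd a := by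
  show w ++ ([a].flatMap prd) = w ++ prd a
  simp

private lemma cls_step (w : List (Fin 3)) (h : Cl w) : Cl (step w) := by
  obtain ⟨i, j, h | h | h | h⟩ := h
  · subst h
    rcases i with _ | _ | i
    · rcases j with _ | j
      · exact ⟨0, 0, Or.inl rfl⟩
      · rw [dd_succ]
        refine ⟨1, j, Or.inr (Or.inl ?_)⟩
        show step (1 :: 2 :: dd j) = _
        rw [step_cc]
        rfl
    · rcases j with _ | j
      · exact ⟨0, 1, Or.inl rfl⟩
      · rw [dd_succ]
        refine ⟨0, j + 1, Or.inr (Or.inr (Or.inl ?_))⟩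
        show step (0 :: 1 :: 2 :: dd j) = _
        rw [step_cc, dd_succ']
        simp [prd]
    · refine ⟨i, j + 1, Or.inl ?_⟩
      show step (0 :: 0 :: (replicate i 0 ++ dd j)) = _
      rw [step_cc, dd_succ', append_assoc]
      rfl
  · subst h
    rcases j with _ | j
    · rcases i with _ | _ | i
      · exact ⟨0, 0, Or.inl rfl⟩
      · exact ⟨0, 1, Or.inl rfl⟩
      · refine ⟨i, 1, Or.inl ?_⟩
        show step (0 :: 0 :: replicate i 0) = _
        rw [step_cc]
        rfl
    · rw [dd_succ]
      refine ⟨i + 1, j, Or.inr (Or.inl ?_)⟩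
      show step (1 :: 2 :: (dd j ++ replicate i 0)) = _
      rw [step_cc, rep_succ', append_assoc]
      rfl
  · subst h
    rcases j with _ | j
    · rcases i with _ | i
      · exact ⟨3, 0, Or.inl rfl⟩
      · refine ⟨i + 3, 0, Or.inl ?_⟩
        show step (2 :: 0 :: replicate i 0) = _
        rw [step_cc, replicate_add]
        show replicate i 0 ++ prd 2 = replicate i 0 ++ replicate 3 0 ++ []
        rw [append_nil]
        rfl
    · rw [dd_succ]
      refine ⟨i + 3, j, Or.inr (Or.inr (Or.inl ?_))⟩
      show step (2 :: 1 :: (2 :: (dd j ++ replicate i 0))) = _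
      rw [step_cc, replicate_add, cons_append, append_assoc]
      rfl
  · subst h
    exact ⟨1, 0, Or.inl rfl⟩

private lemma cls_two (w : List (Fin 3)) (h : Two w) : Cl w := by
  obtain ⟨x, y, h | h⟩ := h
  · exact ⟨x, y, Or.inl h⟩
  · refine ⟨0, y, Or.inr (Or.inr (Or.inl ?_))⟩
    rw [h]
    simp

private lemma cls_short (w : List (Fin 3)) (h : w.length < 2) : Cl w := by
  match w, h with
  | [], _ => exact ⟨0, 0, Or.inl rfl⟩
  | [c], _ =>
    fin_cases c
    · exact ⟨1, 0, Or.inl rfl⟩
    · exact ⟨0, 0, Or.inr (Or.inr (Or.inr rfl))⟩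
    · exact ⟨0, 0, Or.inr (Or.inr (Or.inl rfl))⟩
  | _ :: _ :: _, h => simp at h

private lemma cls_pre (z : List (Fin 3)) : ¬ Cl ([0, 0, 0, 1, 2, 1, 2, 0] ++ z) := by
  rintro ⟨i, j, h | h | h | h⟩
  · rcases i with _ | _ | _ | _ | i
    · rcases j with _ | j
      · simp [dd] at h
      · rw [dd_succ] at h
        simp at h
    · rcases j with _ | j
      · simp [dd] at h
      · rw [dd_succ] at h
        simp at h
    · rcases j with _ | j
      · simp [dd] at h
      · rw [dd_succ] at h
        simp at h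
    · rcases j with _ | _ | _ | j
      · simp [dd] at h
      · simp [dd] at h
      · simp [dd] at h
      · rw [dd_succ, dd_succ, dd_succ] at h
        simp at h
    · simp [replicate_succ] at h
  · rcases j with _ | j
    · have h1 : (1 : Fin 3) ∈ dd 0 ++ replicate i 0 := by
        rw [← h]
        simp
      simp [dd] at h1
    · rw [dd_succ] at h
      simp at h
  · simp at h
  · simp at h

private lemma cls_x (x : ℕ) (hx : 1 ≤ x) : ¬ Cl (replicate x 0 ++ [1, 2] ++ replicate 6 0) := by
  obtain ⟨x, rfl⟩ := Nat.exists_eq_add_of_le' hx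
  have hhead : (replicate (x + 1) (0 : Fin 3) ++ [1, 2] ++ replicate 6 0) =
      0 :: (replicate x 0 ++ [1, 2] ++ replicate 6 0) := by
    rw [replicate_succ]
    rfl
  have hlast : (replicate (x + 1) (0 : Fin 3) ++ [1, 2] ++ replicate 6 0).getLast? = some 0 := by
    have : (replicate 6 (0 : Fin 3)) = replicate 5 0 ++ [0] := rfl
    rw [this, ← append_assoc, getLast?_append]
    rfl
  have hmem : (1 : Fin 3) ∈ (replicate (x + 1) (0 : Fin 3) ++ [1, 2] ++ replicate 6 0) := by
    simp
  rintro ⟨i, j, h | h | h | h⟩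
  · rcases j with _ | j
    · rw [h] at hmem
      simp [dd] at hmem
    · rw [h, dd_succ', ← append_assoc, getLast?_append] at hlast
      simp at hlast
  · rcases j with _ | j
    · rw [h] at hmem
      simp [dd] at hmem
    · rw [hhead, dd_succ] at h
      simp at h
  · rw [hhead] at h
    simp at h
  · rw [hhead] at h
    simp at h

/-- (CLS) the class is closed. -/
theorem pf_CLS : T_CLS := ⟨cls_step, cls_two, cls_short, cls_pre, cls_x⟩

end Pool.Agent.H70.TGS
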