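import Pool.Agent.H70.TGS.Targets2

set_option autoImplicit false

open List Pool.Agent.H68.TG

namespace Pool.Agent.H70.TGS

private abbrev O : Bool := false

private abbrev I : Bool := true

/-- the number of steps needed for reading -/
def cost : Bool → List Bool → ℕ
  | _, [] => 0
  | false, false :: w => cost true w + 1
  | true, false :: w => cost false w
  | s, true :: w => cost s w + 1

lemma emb_app (a b : List Bool) : emb (a ++ b) = emb a ++ emb b := by
  induction a with
  | nil => rfl
  | cons c a ih =>
    cases c
    · show 0 :: emb (a ++ b) = 0 :: (emb a ++ emb b)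
      rw [ih]
    · show 1 :: 2 :: emb (a ++ b) = 1 :: 2 :: (emb a ++ emb b)
      rw [ih]

lemma st_app (s : Bool) (a b : List Bool) : st s (a ++ b) = st (st s a) b := by
  induction a generalizing s with
  | nil => rfl
  | cons c a ih => cases c <;> exact ih _

lemma tr_app (s : Bool) (a b : List Bool) : tr s (a ++ b) = tr s a ++ tr (st s a) b := by
  induction a generalizing s with
  | nil => rfl
  | cons c a ih =>
    cases c <;> cases s
    · show true :: tr true (a ++ b) = true :: (tr true a ++ tr (st true a) b)
      rw [ih]
    · exact ih _
    · show false :: tr false (a ++ b) = false :: (tr false a ++ tr (st false a) b)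
      rw [ih]
    · show false :: false :: false :: tr true (a ++ b) =
        false :: false :: false :: (tr true a ++ tr (st true a) b)
      rw [ih]

lemma cost_app (s : Bool) (a b : List Bool) : cost s (a ++ b) = cost s a + cost (st s a) b := by
  induction a generalizing s with
  | nil => show cost s b = 0 + cost s b; omega
  | cons c a ih =>
    cases c <;> cases s
    · show cost true (a ++ b) + 1 = cost true a + 1 + cost (st true a) b
      rw [ih]; omega
    · exact ih _
    · show cost false (a ++ b) + 1 = cost false a + 1 + cost (st false a) b
      rw [ih]; omega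
    · show cost true (a ++ b) + 1 = cost true a + 1 + cost (st true a) b
      rw [ih]; omega

lemma emb_cons (w : List Bool) (hw : w ≠ []) : ∃ e es, emb w = e :: es := by
  cases w with
  | nil => exact absurd rfl hw
  | cons c w => cases c
                · exact ⟨0, emb w, rfl⟩
                · exact ⟨1, 2 :: emb w, rfl⟩

lemma step2 (a b : Fin 3) (w : List (Fin 3)) : step (a :: b :: w) = w ++ prd a := by
  show w ++ ([a].flatMap prd) = w ++ prd a
  simp

/-- reading a prefix, with the exact number of steps -/
lemma read (p : List Bool) : ∀ (s : Bool) (w : List Bool), w ≠ [] →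
    step^[cost s p] (tape (s, p ++ w)) = tape (st s p, w ++ tr s p) := by
  induction p with
  | nil =>
    intro s w _
    show tape (s, w) = tape (s, w ++ [])
    rw [append_nil]
  | cons c p ih =>
    intro s w hw
    obtain ⟨e, es, he⟩ := emb_cons (p ++ w) (by simp [hw])
    cases c <;> cases s
    · show step^[cost true p + 1] (tape (false, false :: (p ++ w))) =
        tape (st true p, w ++ (true :: tr true p))
      have h1 : step (tape (false, false :: (p ++ w))) = tape (true, p ++ (w ++ [true])) := by
        show step (0 :: emb (p ++ w)) = (emb (p ++ (w ++ [true]))).drop 1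
        rw [← append_assoc, emb_app (p ++ w), he, step2]
        rfl
      rw [Function.iterate_succ_apply, h1, ih true (w ++ [true]) (by simp), append_assoc]
      rfl
    · show step^[cost false p] (tape (true, false :: (p ++ w))) =
        tape (st false p, w ++ tr false p)
      exact ih false w hw
    · show step^[cost false p + 1] (tape (false, true :: (p ++ w))) =
        tape (st false p, w ++ (false :: tr false p))
      have h1 : step (tape (false, true :: (p ++ w))) = tape (false, p ++ (w ++ [false])) := by
        show step (1 :: 2 :: emb (p ++ w)) = emb (p ++ (w ++ [false]))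
        rw [← append_assoc, emb_app (p ++ w), step2]
        rfl
      rw [Function.iterate_succ_apply, h1, ih false (w ++ [false]) (by simp), append_assoc]
      rfl
    · show step^[cost true p + 1] (tape (true, true :: (p ++ w))) =
        tape (st true p, w ++ (false :: false :: false :: tr true p))
      have h1 : step (tape (true, true :: (p ++ w))) =
          tape (true, p ++ (w ++ [false, false, false])) := by
        show step (2 :: emb (p ++ w)) = (emb (p ++ (w ++ [false, false, false]))).drop 1
        rw [← append_assoc, emb_app (p ++ w), he, step2]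
        rfl
      rw [Function.iterate_succ_apply, h1, ih true (w ++ [false, false, false]) (by simp),
        append_assoc]
      rfl

/-- a whole pass -/
lemma read_all (s : Bool) (p1 p2 : List Bool) (h1 : tr s p1 ≠ []) (h2 : p2 ≠ []) :
    step^[cost s (p1 ++ p2)] (tape (s, p1 ++ p2)) = tape (st s (p1 ++ p2), tr s (p1 ++ p2)) := by
  rw [cost_app, add_comm, Function.iterate_add_apply, read p1 s p2 h2,
    read p2 (st s p1) (tr s p1) h1, st_app, tr_app]

/-- a pass over a sequence of neutral blocks -/
lemma pass_blk (s s' : Bool) (F F' : Bool → List Bool) (t u t' : List Bool)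
    (hF : ∀ c, st s (F c) = s ∧ tr s (F c) = F' c) (hst : st s (t ++ u) = s')
    (htr : tr s (t ++ u) = t') (ht : tr s t ≠ []) (hu : u ≠ []) (q : List Bool) :
    step^[(q.map fun c => cost s (F c)).sum + cost s (t ++ u)]
      (tape (s, q.flatMap F ++ (t ++ u))) = tape (s', q.flatMap F' ++ t') := by
  have h1 : ∀ q : List Bool, st s (q.flatMap F) = s ∧ tr s (q.flatMap F) = q.flatMap F' ∧
      cost s (q.flatMap F) = (q.map fun c => cost s (F c)).sum := by
    intro q
    induction q with
    | nil => exact ⟨rfl, rfl, rfl⟩
    | cons c q ih =>
      obtain ⟨i1, i2, i3⟩ := ih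
      rw [flatMap_cons, flatMap_cons, map_cons, sum_cons, st_app, tr_app, cost_app, (hF c).1,
        (hF c).2]
      exact ⟨i1, by rw [i2], by rw [i3]⟩
  obtain ⟨i1, i2, i3⟩ := h1 q
  have h2 := read_all s (q.flatMap F ++ t) u (by rw [tr_app, i1]; simp [ht]) hu
  rw [append_assoc] at h2
  rw [cost_app, i1, i3, st_app, i1, hst, tr_app, i1, i2, htr] at h2
  exact h2

-- generated
private def F0 (c : Bool) : List Bool :=
  if c then
    [O, O, O, I, I, O, O, O, O, O, I, I]
  else
    [O, O, O, I, I, O, O, I, I, O, O, O]

private def t0 : List Bool := [O, O, O, I, I, O]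

private def u0 : List Bool := [O]

private def F1 (c : Bool) : List Bool :=
  if c then
    [I, I, O, O, O, O, O, O, I, I, O, O]
  else
    [I, I, O, O, O, O, O, O, I, O, O, O, O, O, O, I]

private def t1 : List Bool := [I, I, O, O, O, O, O, O]

private def u1 : List Bool := [I]

private def F2 (c : Bool) : List Bool :=
  if c then
    [O, O, O, O, O, O, I, I, I, O, O, O, O, O, O, I]
  else
    [O, O, O, O, O, O, I, I, I, O, O, O, I, I, I, O, O, O]

private def t2 : List Bool := [O, O, O, O, O, O, I, I, I, O, O]

private def u2 : List Bool := [O]

private def F3 (c : Bool) : List Bool :=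
  if c then
    [I, I, I, O, O, O, O, O, O, O, O, O, I, I, I, O, O, O]
  else
    [I, I, I, O, O, O, O, O, O, O, O, O, I, O, O, O, I, I]

private def t3 : List Bool := [I, I, I, O, O, O, O, O, O, O, O, O]

private def u3 : List Bool := [I]

private def F4 (c : Bool) : List Bool :=
  if c then
    [O, O, O, I, I, I, I, I, O, O, O, O, O, O, O, O, O, I]
  else
    [O, O, O, I, I, I, I, I, O, O, O, I, O, O]

private def t4 : List Bool := [O, O, O, I, I, I, I, I, O, O]

private def u4 : List Bool := [O]

private def F5 (c : Bool) : List Bool :=
  if c then
    [I, O, O, O, O, O, I, I, I, I, I, O, O, O]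
  else
    [I, O, O, O, O, O, I, I, O, O, O, I]

private def t5 : List Bool := [I, O, O, O, O, O, I]

private def u5 : List Bool := [I]

lemma emb_F0 (q : List Bool) : emb (q.flatMap F0 ++ (t0 ++ u0)) = cyw q := by
  have h : emb (q.flatMap F0) = q.flatMap blk := by
    induction q with
    | nil => rfl
    | cons c q ih =>
      rw [flatMap_cons, flatMap_cons, emb_app, ih]
      congr 1
      cases c <;> rfl
  rw [emb_app, h]
  rfl

lemma it2 {m n : ℕ} {x y z : List (Fin 3)} (h1 : step^[n] x = y) (h2 : step^[m] y = z) :
    step^[m + n] x = z := by
  rw [Function.iterate_add_apply, h1, h2]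

/-- (CYC) cycles. -/
theorem pf_CYC : T_CYC := by
  intro q
  have e0 := pass_blk false true F0 F1 t0 u0 (t1 ++ u1) (by decide) (by decide) (by decide)
    (by decide) (by decide) q
  have e1 := pass_blk true true F1 F2 t1 u1 (t2 ++ u2) (by decide) (by decide) (by decide)
    (by decide) (by decide) q
  have e2 := pass_blk true false F2 F3 t2 u2 (t3 ++ u3) (by decide) (by decide) (by decide)
    (by decide) (by decide) q
  have e3 := pass_blk false true F3 F4 t3 u3 (t4 ++ u4) (by decide) (by decide) (by decide)
    (by decide) (by decide) q
  have e4 := pass_blk true true F4 F5 t4 u4 (t5 ++ u5) (by decide) (by decide) (by decide)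
    (by decide) (by decide) q
  have e5 := pass_blk true false F5 F0 t5 u5 (t0 ++ u0) (by decide) (by decide) (by decide)
    (by decide) (by decide) q
  have hc : 60 * q.length + 40 =
      ((q.map fun c => cost true (F5 c)).sum + cost true (t5 ++ u5)) +
      (((q.map fun c => cost true (F4 c)).sum + cost true (t4 ++ u4)) +
      (((q.map fun c => cost false (F3 c)).sum + cost false (t3 ++ u3)) +
      (((q.map fun c => cost true (F2 c)).sum + cost true (t2 ++ u2)) +
      (((q.map fun c => cost true (F1 c)).sum + cost true (t1 ++ u1)) +
      ((q.map fun c => cost false (F0 c)).sum + cost false (t0 ++ u0)))))) := by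
    have h6 : cost true (t5 ++ u5) + cost true (t4 ++ u4) + cost false (t3 ++ u3) +
        cost true (t2 ++ u2) + cost true (t1 ++ u1) + cost false (t0 ++ u0) = 40 := by decide
    have h7 : ∀ q : List Bool, (q.map fun c => cost true (F5 c)).sum +
        (q.map fun c => cost true (F4 c)).sum + (q.map fun c => cost false (F3 c)).sum +
        (q.map fun c => cost true (F2 c)).sum + (q.map fun c => cost true (F1 c)).sum +
        (q.map fun c => cost false (F0 c)).sum = 60 * q.length := by
      intro q
      induction q with
      | nil => rfl
      | cons c q ih =>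
        simp only [map_cons, sum_cons, length_cons]
        have h8 : ∀ c, cost true (F5 c) + cost true (F4 c) + cost false (F3 c) +
          cost true (F2 c) + cost true (F1 c) + cost false (F0 c) = 60 := by decide
        have h9 := h8 c
        omega
    have h8 := h7 q
    omega
  have hw : cyw q = tape (false, q.flatMap F0 ++ (t0 ++ u0)) := (emb_F0 q).symm
  rw [hc, hw]
  exact it2 (it2 (it2 (it2 (it2 e0 e1) e2) e3) e4) e5

end Pool.Agent.H70.TGS
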