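import Pool.Agent.H70.TGS.Targets

set_option autoImplicit false

open List Pool.Agent.H68.TG

namespace Pool.Agent.H70.TGS

private lemma stops_step' (k : ℕ) (w : List (Fin 3)) (h : Stops (step^[k] w)) : Stops w := by
  obtain ⟨n, hn⟩ := h
  refine ⟨n + k, ?_⟩
  rw [Function.iterate_add_apply]
  exact hn

/-- (FD) the words `p (12)^n v`. -/
theorem pf_FD (hRDC : T_RDC) (hNDF : T_NDF) : T_FD := by
  intro p v a q hq
  obtain ⟨s, m, r, V, hm, -, -, -, hV⟩ := hNDF p v
  obtain ⟨α, q1, hq1, hqe⟩ := Nat.exists_eq_two_pow_mul_odd (show q ≠ 0 by omega)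
  obtain ⟨i0, P, ρ, Q, hP, hQ, hR⟩ := hRDC s (one V) α (m * a + r) (m * q1) (hm.mul hq1)
  refine ⟨a + q * i0, q * P, ρ, Q, Nat.one_le_iff_ne_zero.2 (by positivity), hQ, ?_⟩
  intro j
  have hn : a + q * i0 + q * P * j = a + q * (i0 + P * j) := by ring
  rw [hn]
  constructor
  · show (a + q * (i0 + P * j)) % q = a % q
    rw [Nat.add_mul_mod_self_left]
  · intro hj
    obtain ⟨k, hk | hk⟩ := hV (a + q * (i0 + P * j))
    · apply stops_step' k
      rw [hk]
      have h3 : m * (a + q * (i0 + P * j)) + r =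
          m * a + r + 2 ^ α * (m * q1 * (i0 + P * j)) := by
        rw [hqe]; ring
      rw [h3]
      exact hR j hj
    · exact ⟨k, hk⟩

end Pool.Agent.H70.TGS
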