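import Pool.Agent.H70.TGS.Targets

set_option autoImplicit false

open List Pool.Agent.H68.TG

namespace Pool.Agent.H70.TGS

private lemma stops_step (k : ℕ) (w : List (Fin 3)) (h : Stops (step^[k] w)) : Stops w := by
  obtain ⟨n, hn⟩ := h
  refine ⟨n + k, ?_⟩
  rw [Function.iterate_add_apply]
  exact hn

/-- (FZ) the words `p 0^n v`. -/
theorem pf_FZ (hRDC : T_RDC) (hNZF : T_NZF) : T_FZ := by
  intro p v a q hq
  obtain ⟨s, m, r, V, hm, -, -, -, hV⟩ := hNZF p v (a % 2) (Nat.mod_lt _ (by norm_num))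
  obtain ⟨α, q1, hq1, hqe⟩ := Nat.exists_eq_two_pow_mul_odd (show q ≠ 0 by omega)
  obtain ⟨i0, P, ρ, Q, hP, hQ, hR⟩ := hRDC s (one V) α (m * (a / 2) + r) (m * q1) (hm.mul hq1)
  refine ⟨a + 2 * q * i0, 2 * q * P, ρ, Q, Nat.one_le_iff_ne_zero.2 (by positivity), hQ, ?_⟩
  intro j
  have hn : a + 2 * q * i0 + 2 * q * P * j = 2 * (a / 2 + q * (i0 + P * j)) + a % 2 := by
    have h1 := Nat.div_add_mod a 2
    have h2 : 2 * (a / 2 + q * (i0 + P * j)) + a % 2 = 2 * (a / 2) + a % 2 + 2 * q * i0 +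
      2 * q * P * j := by ring
    rw [h2, h1]
  constructor
  · have h2 : a + 2 * q * i0 + 2 * q * P * j = a + q * (2 * i0 + 2 * P * j) := by ring
    rw [h2]
    show (a + q * (2 * i0 + 2 * P * j)) % q = a % q
    rw [Nat.add_mul_mod_self_left]
  · intro hj
    rw [hn]
    obtain ⟨k, hk | hk⟩ := hV (a / 2 + q * (i0 + P * j))
    · apply stops_step k
      rw [hk]
      have h3 : m * (a / 2 + q * (i0 + P * j)) + r =
          m * (a / 2) + r + 2 ^ α * (m * q1 * (i0 + P * j)) := by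
        rw [hqe]; ring
      rw [h3]
      exact hR j hj
    · exact ⟨k, hk⟩

end Pool.Agent.H70.TGS
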