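import Pool.Agent.H70.TGS.Targets2
import Pool.Agent.H33.TGS.NSF

set_option autoImplicit false

open List Pool.Agent.H68.TG

namespace Pool.Agent.H70.TGS

lemma cl_iter (hCLS : T_CLS) (w : List (Fin 3)) (h : Cl w) (k : ℕ) : Cl (step^[k] w) := by
  induction k with
  | zero => exact h
  | succ k ih =>
    rw [Function.iterate_succ_apply']
    exact hCLS.1 _ ih

lemma not_cl_per (hCLS : T_CLS) (w : List (Fin 3)) (P : ℕ) (hP : 1 ≤ P) (hw : step^[P] w = w)
    (h : ¬ Cl w) (k : ℕ) : ¬ Cl (step^[k] w) := by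
  intro hk
  have h1 : ∀ i, step^[P * i] w = w := by
    intro i
    induction i with
    | zero => rfl
    | succ i ih => rw [mul_add, mul_one, Function.iterate_add_apply, hw, ih]
  apply h
  have h2 : k ≤ P * k := Nat.le_mul_of_pos_left k hP
  obtain ⟨j, hj⟩ := Nat.exists_eq_add_of_le h2
  have h3 := cl_iter hCLS _ hk j
  rw [← Function.iterate_add_apply, add_comm, ← hj, h1] at h3
  exact h3

lemma not_cl_reach (hCLS : T_CLS) (w w' : List (Fin 3)) (n : ℕ) (hn : step^[n] w = w')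
    (h : ∀ k, ¬ Cl (step^[k] w')) (k : ℕ) : ¬ Cl (step^[k] w) := by
  intro hk
  rcases Nat.le_total n k with h1 | h1
  · obtain ⟨j, rfl⟩ := Nat.exists_eq_add_of_le h1
    rw [add_comm, Function.iterate_add_apply, hn] at hk
    exact h j hk
  · obtain ⟨j, rfl⟩ := Nat.exists_eq_add_of_le h1
    have h2 := cl_iter hCLS _ hk j
    rw [← Function.iterate_add_apply, add_comm, hn] at h2
    exact h 0 h2

/-- (CYN) the computation on `cyw q` never reaches the class. -/
theorem pf_CYN (hCLS : T_CLS) (hCYC : T_CYC) : T_CYN := by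
  intro q k
  refine not_cl_per hCLS (cyw q) (60 * q.length + 40) (by omega) (hCYC q) ?_ k
  obtain ⟨z, hz⟩ : ∃ z, cyw q = [0, 0, 0, 1, 2, 1, 2, 0] ++ z := by
    cases q with
    | nil => exact ⟨[0], rfl⟩
    | cons c q =>
      cases c
      · exact ⟨[0, 1, 2, 1, 2, 0, 0, 0] ++ cyw q, by simp [cyw, blk]⟩
      · exact ⟨[0, 0, 0, 0, 1, 2, 1, 2] ++ cyw q, by simp [cyw, blk]⟩
  rw [hz]
  exact hCLS.2.2.2.1 z

/-- a double pass -/
private lemma dpass (hPAS : T_PAS) (hDBL : T_DBL) (s : Bool) (x a b : ℕ) (h : 7 ≤ x + (a + b)) :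
    ∃ n, step^[n] (tape (cfg (s, x, [(true, a), (false, b)]))) =
      tape (cfg (nx (s, x, [(true, a), (false, b)]))) := by
  set q := cfg (s, x, [(true, a), (false, b)]) with hq
  have h1 := Pool.Agent.H33.TGS.cfg_length s x a b
  have h2 := Pool.Agent.H33.TGS.tape_length q
  have h3 := Pool.Agent.H33.TGS.tape_length (pass q)
  have h4 : (pass q).2 = tr q.1 q.2 := rfl
  have h5 := (Pool.Agent.H33.TGS.tr_length q.2 q.1).1
  rw [h4] at h3
  rw [← hq] at h1
  obtain ⟨n1, -, hn1, -⟩ := hPAS q (by omega)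
  obtain ⟨n2, -, hn2, -⟩ := hPAS (pass q) (by omega)
  refine ⟨n2 + n1, ?_⟩
  rw [Function.iterate_add_apply, hn1, hn2, hDBL]

private lemma trans (u v w : List (Fin 3)) (h1 : ∃ n, step^[n] u = v) (h2 : ∃ n, step^[n] v = w) :
    ∃ n, step^[n] u = w := by
  obtain ⟨n1, h1⟩ := h1
  obtain ⟨n2, h2⟩ := h2
  exact ⟨n2 + n1, by rw [Function.iterate_add_apply, h1, h2]⟩

private lemma chain2 (m : ℕ) :
    nx (false, 64 * m + 61, [(true, 1), (false, 6)]) =
      (false, 96 * m + 93, [(true, 1), (false, 3)]) ∧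
    nx (false, 96 * m + 93, [(true, 1), (false, 3)]) =
      (true, 48 * m + 47, [(true, 2), (false, 3)]) ∧
    nx (true, 48 * m + 47, [(true, 2), (false, 3)]) =
      (true, 72 * m + 69, [(true, 1), (false, 6)]) ∧
    nx (true, 72 * m + 69, [(true, 1), (false, 6)]) =
      (true, 36 * m + 34, [(true, 1), (false, 9)]) := by
  have hodd : ∀ n : ℕ, (2 * n + 1).bodd = true := by
    intro n
    rw [Nat.bodd_add, Nat.bodd_mul]
    rfl
  have b1 : (64 * m + 61).bodd = true := by
    have : 64 * m + 61 = 2 * (32 * m + 30) + 1 := by ring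
    rw [this, hodd]
  have b2 : (96 * m + 93).bodd = true := by
    have : 96 * m + 93 = 2 * (48 * m + 46) + 1 := by ring
    rw [this, hodd]
  have b3 : (48 * m + 47).bodd = true := by
    have : 48 * m + 47 = 2 * (24 * m + 23) + 1 := by ring
    rw [this, hodd]
  have b4 : (72 * m + 69).bodd = true := by
    have : 72 * m + 69 = 2 * (36 * m + 34) + 1 := by ring
    rw [this, hodd]
  refine ⟨?_, ?_, ?_, ?_⟩
  · unfold nx s1 s2
    rw [b1]
    have h1 : hf false (64 * m + 61) = 32 * m + 31 := by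
      unfold hf
      rw [if_neg (by decide)]
      omega
    rw [h1]
    simp [dbl, pa, t3, hf, Nat.bodd]
    ring
  · unfold nx s1 s2
    rw [b2]
    have h1 : hf false (96 * m + 93) = 48 * m + 47 := by
      unfold hf
      rw [if_neg (by decide)]
      omega
    rw [h1]
    simp [dbl, pa, t3, hf, Nat.bodd]
  · unfold nx s1 s2
    rw [b3]
    have h1 : hf true (48 * m + 47) = 24 * m + 23 := by
      unfold hf
      rw [if_pos rfl]
      omega
    rw [h1]
    simp [dbl, pa, t3, hf, Nat.bodd]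
    ring
  · unfold nx s1 s2
    rw [b4]
    have h1 : hf true (72 * m + 69) = 36 * m + 34 := by
      unfold hf
      rw [if_pos rfl]
      omega
    rw [h1]
    simp [dbl, pa, t3, hf, Nat.bodd]

/-- (GNB) the exceptional numbers. -/
theorem pf_GNB (hCLS : T_CLS) (hPAS : T_PAS) (hDBL : T_DBL) : T_GNB := by
  have htail : ∀ x : ℕ, ∃ n, step^[n] (tape (cfg (true, 4 * x + 2, [(true, 1), (false, 9)]))) =
      tape (cfg (false, x, [(true, 1), (false, 6)])) := by
    intro x
    obtain ⟨-, c2, c3⟩ := Pool.Agent.H33.TGS.chain x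
    have d2 := dpass hPAS hDBL true (4 * x + 2) 1 9 (by omega)
    have d3 := dpass hPAS hDBL true (2 * x + 1) 2 12 (by omega)
    rw [c2] at d2
    rw [c3] at d3
    exact trans _ _ _ d2 d3
  refine ⟨?_, ?_, ?_⟩
  · have hper : step^[40] (replicate 5 0 ++ [1, 2] ++ replicate 6 0) =
      replicate 5 0 ++ [1, 2] ++ replicate 6 0 := by decide
    exact not_cl_per hCLS _ 40 (by norm_num) hper (hCLS.2.2.2.2 5 (by norm_num))
  · intro x hx
    obtain ⟨c1, -, -⟩ := Pool.Agent.H33.TGS.chain x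
    have d1 := dpass hPAS hDBL false (8 * x + 4) 1 6 (by omega)
    rw [c1] at d1
    obtain ⟨n, hn⟩ := trans _ _ _ d1 (htail x)
    rw [Pool.Agent.H33.TGS.tape_cfg, Pool.Agent.H33.TGS.tape_cfg] at hn
    exact not_cl_reach hCLS _ _ n hn hx
  · intro m hm
    obtain ⟨c1, c2, c3, c4⟩ := chain2 m
    have d1 := dpass hPAS hDBL false (64 * m + 61) 1 6 (by omega)
    have d2 := dpass hPAS hDBL false (96 * m + 93) 1 3 (by omega)
    have d3 := dpass hPAS hDBL true (48 * m + 47) 2 3 (by omega)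
    have d4 := dpass hPAS hDBL true (72 * m + 69) 1 6 (by omega)
    rw [c1] at d1
    rw [c2] at d2
    rw [c3] at d3
    rw [c4] at d4
    have d5 := htail (9 * m + 8)
    have e : 4 * (9 * m + 8) + 2 = 36 * m + 34 := by ring
    rw [e] at d5
    obtain ⟨n, hn⟩ := trans _ _ _ d1 (trans _ _ _ d2 (trans _ _ _ d3 (trans _ _ _ d4 d5)))
    rw [Pool.Agent.H33.TGS.tape_cfg, Pool.Agent.H33.TGS.tape_cfg] at hn
    exact not_cl_reach hCLS _ _ n hn hm

end Pool.Agent.H70.TGS
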