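import Pool.Agent.H70.TGS.Targets

set_option autoImplicit false

open List Pool.Agent.H68.TG

namespace Pool.Agent.H70.TGS

/-- (MAI) the theorem. -/
theorem pf_MAI (hFZ : T_FZ) (hFD : T_FD) (hCNA : T_CNA) (hNSF : T_NSF) (hUPC : T_UPC) :
    T_MAI := by
  have hA : ∀ (p v : List (Fin 3)) (a q : ℕ), 1 ≤ q → ∃ N0 : ℕ, ∀ N ≥ N0,
    (N : ℝ) ^ (1 / 7 : ℝ) ≤
      (({n : ℕ | n < N ∧ n ≡ a [MOD q] ∧ Stops (p ++ replicate n 0 ++ v)}.ncard : ℕ) : ℝ) ∧
    (N : ℝ) ^ (1 / 7 : ℝ) ≤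
      (({n : ℕ | n < N ∧ n ≡ a [MOD q] ∧ Stops (p ++ dd n ++ v)}.ncard : ℕ) : ℝ) := by
    intro p v a q hq
    obtain ⟨n0, P, ρ, Q, hP, hQ, hR⟩ := hFZ p v a q hq
    obtain ⟨N0, hN0⟩ := hCNA (fun n => Stops (p ++ replicate n 0 ++ v)) a q n0 P ρ Q hP hQ hR
    obtain ⟨n0', P', ρ', Q', hP', hQ', hR'⟩ := hFD p v a q hq
    obtain ⟨N0', hN0'⟩ := hCNA (fun n => Stops (p ++ dd n ++ v)) a q n0' P' ρ' Q' hP' hQ' hR'
    exact ⟨N0 + N0', fun N hN => ⟨hN0 N (by omega), hN0' N (by omega)⟩⟩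
  -- members of every progression beyond every bound
  have hinf : ∀ (v : List (Fin 3)) (a q m : ℕ), 1 ≤ q →
      ∃ n, m ≤ n ∧ n ≡ a [MOD q] ∧ Stops (replicate n 0 ++ v) := by
    intro v a q m hq
    by_contra hcon
    push Not at hcon
    obtain ⟨N0, hN0⟩ := hA [] v a q hq
    have h1 := (hN0 (N0 + (m + 1) ^ 7) (by omega)).1
    have h2 : {n : ℕ | n < N0 + (m + 1) ^ 7 ∧ n ≡ a [MOD q] ∧
        Stops (([] : List (Fin 3)) ++ replicate n 0 ++ v)} ⊆ {n : ℕ | n < m} := by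
      intro n hn
      by_contra h
      have h3 : m ≤ n := not_lt.1 h
      exact hcon n h3 hn.2.1 (by simpa using hn.2.2)
    have h3 := Set.ncard_le_ncard h2 (Set.finite_lt_nat m)
    have h4 : ({n : ℕ | n < m}).ncard = m := by
      have : {n : ℕ | n < m} = ((Finset.range m : Finset ℕ) : Set ℕ) := by
        ext n; simp
      rw [this, Set.ncard_coe_finset, Finset.card_range]
    rw [h4] at h3
    have h5 : ((m + 1 : ℕ) : ℝ) ≤ ((N0 + (m + 1) ^ 7 : ℕ) : ℝ) ^ (1 / 7 : ℝ) := by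
      have h6 := Real.pow_rpow_inv_natCast (x := ((m + 1 : ℕ) : ℝ)) (by positivity)
        (show (7 : ℕ) ≠ 0 by norm_num)
      have h7 : ((7 : ℕ) : ℝ)⁻¹ = 1 / 7 := by norm_num
      rw [h7] at h6
      calc ((m + 1 : ℕ) : ℝ) = (((m + 1 : ℕ) : ℝ) ^ 7) ^ (1 / 7 : ℝ) := h6.symm
        _ ≤ _ := by
          refine Real.rpow_le_rpow (by positivity) ?_ (by norm_num)
          push_cast
          have : (0 : ℝ) ≤ N0 := Nat.cast_nonneg _
          linarith
    have h8 : ((m + 1 : ℕ) : ℝ) ≤ ((m : ℕ) : ℝ) := by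
      refine h5.trans (h1.trans ?_)
      exact_mod_cast h3
    have h9 : m + 1 ≤ m := by exact_mod_cast h8
    omega
  -- no ultimate periodicity
  have hper : ∀ P n0 : ℕ, 1 ≤ P →
      (∀ n ≥ n0, (Stops (replicate n 0 ++ ([1, 2] ++ replicate 6 0)) ↔
        Stops (replicate (n + P) 0 ++ ([1, 2] ++ replicate 6 0)))) → False := by
    intro P n0 hP hh
    obtain ⟨x, hx, hxn⟩ : ∃ x, 7 * x + 4 = 39 * 8 ^ n0 ∧ n0 ≤ x := by
      have h1 : ∀ k, ∃ x, 7 * x + 4 = 39 * 8 ^ k ∧ k ≤ x := by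
        intro k
        induction k with
        | zero => exact ⟨5, by norm_num, by omega⟩
        | succ k ih =>
          obtain ⟨x, hx, hk⟩ := ih
          refine ⟨8 * x + 4, ?_, by omega⟩
          rw [pow_succ]
          omega
      exact h1 n0
    have hns := hNSF n0 x hx
    rw [append_assoc] at hns
    have h2 : ∀ i, ¬ Stops (replicate (x + P * i) 0 ++ ([1, 2] ++ replicate 6 0)) := by
      intro i
      induction i with
      | zero => simpa using hns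
      | succ i ih =>
        have h3 : x + P * (i + 1) = x + P * i + P := by ring
        rw [h3, ← hh (x + P * i) (by omega)]
        exact ih
    obtain ⟨n, hxn, hmod, hst⟩ := hinf ([1, 2] ++ replicate 6 0) x P x hP
    obtain ⟨i, hi⟩ := (Nat.modEq_iff_dvd' hxn).1 hmod.symm
    apply h2 i
    have h4 : x + P * i = n := by omega
    rw [h4]
    exact hst
  refine ⟨hA, hNSF, ?_, ?_⟩
  · intro hCF
    obtain ⟨P, n0, hP, hn⟩ := hUPC _ ([1, 2] ++ replicate 6 0) hCF (by simp)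
    exact hper P n0 hP hn
  · intro hCF
    obtain ⟨P, n0, hP, hn⟩ := hUPC _ ([1, 2] ++ replicate 6 0) hCF (by simp)
    exact hper P n0 hP (fun n hnn => not_iff_not.1 (hn n hnn))

end Pool.Agent.H70.TGS
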