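import Pool.Agent.H70.TGS.Targets2

set_option autoImplicit false

open List Pool.Agent.H68.TG

namespace Pool.Agent.H70.TGS

/-- the cycles of period dividing `60 m + 40` through words of length `16 m + 9` on which the
computation never stops and never reaches a word with two runs -/
def Cyc (m : ℕ) : Set (Set (List (Fin 3))) :=
  {O | ∃ w : List (Fin 3), w.length = 16 * m + 9 ∧ step^[60 * m + 40] w = w ∧
    (∀ k, 2 ≤ (step^[k] w).length ∧ ¬ Two (step^[k] w)) ∧ O = Set.range fun k => step^[k] w}

private lemma blk_len (c : Bool) : (blk c).length = 16 := by cases c <;> rfl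

private lemma cyw_len (q : List Bool) : (cyw q).length = 16 * q.length + 9 := by
  have h : (q.flatMap blk).length = 16 * q.length := by
    induction q with
    | nil => rfl
    | cons c q ih =>
      rw [flatMap_cons, length_append, ih, blk_len, length_cons]
      ring
  unfold cyw
  rw [length_append, h]
  rfl

private lemma cyw_inj : ∀ q q' : List Bool, q.length = q'.length → cyw q = cyw q' → q = q' := by
  intro q
  induction q with
  | nil =>
    intro q' hl _
    exact (length_eq_zero_iff.1 hl.symm).symm
  | cons c q ih =>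
    intro q' hl h
    cases q' with
    | nil => simp at hl
    | cons c' q' =>
      have h1 : blk c ++ cyw q = blk c' ++ cyw q' := by
        unfold cyw at h ⊢
        rw [flatMap_cons, flatMap_cons, append_assoc, append_assoc] at h
        exact h
      obtain ⟨h2, h3⟩ := append_inj h1 (by rw [blk_len, blk_len])
      have h4 : c = c' := by
        cases c <;> cases c'
        · rfl
        · exact absurd h2 (by decide)
        · exact absurd h2 (by decide)
        · rfl
      rw [h4, ih q' (by simpa using hl) h3]

private lemma orbit_card (w : List (Fin 3)) (P : ℕ) (hP : 1 ≤ P) (h : step^[P] w = w) :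
    (Set.range fun k => step^[k] w).Finite ∧ (Set.range fun k => step^[k] w).ncard ≤ P := by
  classical
  have h1 : ∀ i, step^[P * i] w = w := by
    intro i
    induction i with
    | zero => rfl
    | succ i ih => rw [mul_add, mul_one, Function.iterate_add_apply, h, ih]
  have h2 : (Set.range fun k => step^[k] w) ⊆
      (((Finset.range P).image fun k => step^[k] w : Finset (List (Fin 3))) : Set _) := by
    rintro _ ⟨k, rfl⟩
    rw [Finset.mem_coe, Finset.mem_image]
    refine ⟨k % P, Finset.mem_range.2 (Nat.mod_lt _ hP), ?_⟩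
    show step^[k % P] w = step^[k] w
    conv_rhs => rw [← Nat.mod_add_div k P, Function.iterate_add_apply, h1]
  refine ⟨(Finset.finite_toSet _).subset h2, ?_⟩
  refine (Set.ncard_le_ncard h2 (Finset.finite_toSet _)).trans ?_
  rw [Set.ncard_coe_finset]
  exact Finset.card_image_le.trans (by rw [Finset.card_range])

/-- there are at least `2^m / (60 m + 40)` different cycles. -/
theorem pf_NCY (hCYC : T_CYC) (hcl : ∀ (q : List Bool) (k : ℕ), 2 ≤ (step^[k] (cyw q)).length ∧
    ¬ Two (step^[k] (cyw q))) (m : ℕ) : (Cyc m).Finite ∧ 2 ^ m ≤ (60 * m + 40) * (Cyc m).ncard := by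
  classical
  have hfin : (Cyc m).Finite := by
    have h1 : {w : List (Fin 3) | w.length = 16 * m + 9}.Finite :=
      List.finite_length_eq (Fin 3) (16 * m + 9)
    refine (h1.image fun w => Set.range fun k => step^[k] w).subset ?_
    rintro O ⟨w, hw, -, -, rfl⟩
    exact ⟨w, hw, rfl⟩
  refine ⟨hfin, ?_⟩
  set W : Finset (List (Fin 3)) :=
    (Finset.univ : Finset (Fin m → Bool)).image (fun f => cyw (ofFn f)) with hW
  have hWc : W.card = 2 ^ m := by
    rw [hW, Finset.card_image_of_injective, Finset.card_univ, Fintype.card_fun, Fintype.card_bool,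
      Fintype.card_fin]
    intro f f' hf
    have h1 := cyw_inj _ _ (by simp) hf
    exact ofFn_injective h1
  have hWm : ∀ w ∈ W, w.length = 16 * m + 9 ∧ step^[60 * m + 40] w = w ∧
      ∀ k, 2 ≤ (step^[k] w).length ∧ ¬ Two (step^[k] w) := by
    intro w hw
    obtain ⟨f, -, rfl⟩ := Finset.mem_image.1 hw
    have h1 := hCYC (ofFn f)
    have h2 := cyw_len (ofFn f)
    rw [length_ofFn] at h1 h2
    exact ⟨h2, h1, hcl _⟩
  have hmaps : ∀ w ∈ W, (Set.range fun k => step^[k] w) ∈ hfin.toFinset := by
    intro w hw
    obtain ⟨h1, h2, h3⟩ := hWm w hw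
    exact hfin.mem_toFinset.2 ⟨w, h1, h2, h3, rfl⟩
  have hfib : ∀ O ∈ hfin.toFinset,
      (W.filter fun w => (Set.range fun k => step^[k] w) = O).card ≤ 60 * m + 40 := by
    intro O hO
    obtain ⟨w0, -, h2, -, rfl⟩ := hfin.mem_toFinset.1 hO
    obtain ⟨h3, h4⟩ := orbit_card w0 (60 * m + 40) (by omega) h2
    refine le_trans ?_ h4
    rw [← Set.ncard_coe_finset]
    refine Set.ncard_le_ncard ?_ h3
    intro w hw
    have h5 := (Finset.mem_filter.1 (Finset.mem_coe.1 hw)).2
    rw [← h5]
    exact ⟨0, rfl⟩
  have hkey := Finset.card_le_mul_card_image_of_maps_to (s := W) (t := hfin.toFinset)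
    (f := fun w => Set.range fun k => step^[k] w) hmaps (60 * m + 40) hfib
  rw [hWc] at hkey
  rw [Set.ncard_eq_toFinset_card _ hfin]
  exact hkey

end Pool.Agent.H70.TGS
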