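import Pool.Agent.H70.TGS.Targets

set_option autoImplicit false

open List Pool.Agent.H68.TG

namespace Pool.Agent.H70.TGS

private lemma aff (α : ℕ) : ∀ x : ℕ, ∃ A : ℕ, ∀ i : ℕ, T^[α] (x + 2 ^ α * i) = T^[α] x + 3 ^ A * i := by
  induction α with
  | zero => intro x; exact ⟨0, fun i => by simp⟩
  | succ α ih =>
    intro x
    obtain ⟨A, hA⟩ := ih (T x)
    rcases Nat.mod_two_eq_zero_or_one x with hx | hx
    · refine ⟨A, fun i => ?_⟩
      rw [Function.iterate_succ_apply, Function.iterate_succ_apply]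
      have h1 : T (x + 2 ^ (α + 1) * i) = T x + 2 ^ α * i := by
        have h2 : x + 2 ^ (α + 1) * i = x + 2 * (2 ^ α * i) := by ring
        unfold T
        rw [h2, if_pos (by omega), if_pos hx]
        omega
      rw [h1, hA]
    · refine ⟨A + 1, fun i => ?_⟩
      rw [Function.iterate_succ_apply, Function.iterate_succ_apply]
      have h1 : T (x + 2 ^ (α + 1) * i) = T x + 2 ^ α * (3 * i) := by
        have h2 : x + 2 ^ (α + 1) * i = x + 2 * (2 ^ α * i) := by ring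
        have h3 : 2 ^ α * (3 * i) = 3 * (2 ^ α * i) := by ring
        unfold T
        rw [h2, h3, if_neg (by omega), if_neg (by omega)]
        omega
      rw [h1, hA, pow_succ]
      ring

/-- (RAG) all progressions. -/
theorem pf_RAG (hRCB : T_RCB) (hRAO : T_RAO) : T_RAG := by
  intro ρ Q hQ
  obtain ⟨α, q1, hq1, hqe⟩ := Nat.exists_eq_two_pow_mul_odd (show Q ≠ 0 by omega)
  obtain ⟨A, hA⟩ := aff α ρ
  obtain ⟨c, hc, J0, hJ⟩ := hRAO (T^[α] ρ) (3 ^ A * q1) ((Odd.pow (by decide)).mul hq1)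
  refine ⟨c, hc, J0, ?_⟩
  intro J hJJ
  refine (hJ J hJJ).trans ?_
  have h1 : {j : ℕ | j < J ∧ Reach (T^[α] ρ + 3 ^ A * q1 * j)} ⊆
      {j : ℕ | j < J ∧ Reach (ρ + Q * j)} := by
    intro j hj
    refine ⟨hj.1, ?_⟩
    apply hRCB.2.2.2 α
    have h2 : ρ + Q * j = ρ + 2 ^ α * (q1 * j) := by rw [hqe]; ring
    rw [h2, hA]
    have h3 : 3 ^ A * (q1 * j) = 3 ^ A * q1 * j := by ring
    rw [h3]
    exact hj.2
  have h2 : ({j : ℕ | j < J ∧ Reach (ρ + Q * j)}).Finite :=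
    (Set.finite_lt_nat J).subset (fun _ h => h.1)
  exact_mod_cast Set.ncard_le_ncard h1 h2

end Pool.Agent.H70.TGS
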