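import Pool.Agent.H70.TGS.Targets

set_option autoImplicit false

open List Pool.Agent.H68.TG

namespace Pool.Agent.H70.TGS

/-- the counting function -/
private noncomputable def NN (ρ Q J : ℕ) : ℕ := ({j : ℕ | j < J ∧ Reach (ρ + Q * j)}).ncard

private lemma fin_set (ρ Q J : ℕ) : ({j : ℕ | j < J ∧ Reach (ρ + Q * j)}).Finite :=
  (Set.finite_lt_nat J).subset (fun _ h => h.1)

private lemma card_Y (ρ Q J : ℕ) (hQ : 1 ≤ Q) (Y : Finset ℕ)
    (hY : ∀ y ∈ Y, y < J ∧ y ≡ ρ [MOD Q] ∧ Reach y) : Y.card ≤ ρ + NN ρ Q J := by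
  classical
  have h1 : Y.card = (Y.filter (fun y => y < ρ)).card + (Y.filter (fun y => ¬ y < ρ)).card :=
    (Finset.card_filter_add_card_filter_not (fun y => y < ρ)).symm
  have h2 : (Y.filter (fun y => y < ρ)).card ≤ ρ := by
    have : Y.filter (fun y => y < ρ) ⊆ Finset.range ρ := by
      intro y hy
      exact Finset.mem_range.2 (Finset.mem_filter.1 hy).2
    exact (Finset.card_le_card this).trans (by rw [Finset.card_range])
  have h3 : (Y.filter (fun y => ¬ y < ρ)).card ≤ NN ρ Q J := by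
    unfold NN
    rw [← Set.ncard_coe_finset]
    refine Set.ncard_le_ncard_of_injOn (fun y => (y - ρ) / Q) ?_ ?_ (fin_set ρ Q J)
    · intro y hy
      have hy' := Finset.mem_filter.1 (Finset.mem_coe.1 hy)
      obtain ⟨hyJ, hyρ, hyR⟩ := hY y hy'.1
      have hge : ρ ≤ y := not_lt.1 hy'.2
      obtain ⟨j, hj⟩ := (Nat.modEq_iff_dvd' hge).1 hyρ.symm
      have hj' : (y - ρ) / Q = j := by rw [hj, Nat.mul_div_cancel_left _ hQ]
      have hjy : ρ + Q * j = y := by omega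
      show (y - ρ) / Q < J ∧ Reach (ρ + Q * ((y - ρ) / Q))
      rw [hj', hjy]
      refine ⟨?_, hyR⟩
      have : 1 * j ≤ Q * j := Nat.mul_le_mul_right _ hQ
      omega
    · intro y hy y' hy' he
      have h4 := Finset.mem_filter.1 (Finset.mem_coe.1 hy)
      have h5 := Finset.mem_filter.1 (Finset.mem_coe.1 hy')
      have hge : ρ ≤ y := not_lt.1 h4.2
      have hge' : ρ ≤ y' := not_lt.1 h5.2
      obtain ⟨j, hj⟩ := (Nat.modEq_iff_dvd' hge).1 (hY y h4.1).2.1.symm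
      obtain ⟨j', hj'⟩ := (Nat.modEq_iff_dvd' hge').1 (hY y' h5.1).2.1.symm
      have he' : (y - ρ) / Q = (y' - ρ) / Q := he
      rw [hj, hj', Nat.mul_div_cancel_left _ hQ, Nat.mul_div_cancel_left _ hQ] at he'
      subst he'
      omega
  omega

private lemma key (hSTE : T_STE) (hTRE : T_TRE) (ρ Q : ℕ) (hQ : Odd Q) :
    ∃ M Es : ℕ, 1 ≤ M ∧ ∀ d J : ℕ, 2 ^ Es * 64 ^ d < J → 2 ^ d ≤ M * (ρ + NN ρ Q J) := by
  classical
  obtain ⟨M, hM, hκ⟩ := hSTE ρ Q hQ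
  have hκ' : ∀ κ : ℕ, ∃ E l S : ℕ, ¬ 3 ∣ κ → ∀ z, 1 ≤ z → z ≡ κ [MOD M] →
      ∃ y, 3 ^ l * y + S = 2 ^ E * z ∧ y ≡ ρ [MOD Q] ∧ (Reach z → Reach y) := by
    intro κ
    by_cases h : 3 ∣ κ
    · exact ⟨0, 0, 0, fun h' => absurd h h'⟩
    · obtain ⟨E, l, S, hh⟩ := hκ κ h
      exact ⟨E, l, S, fun _ => hh⟩
  choose E l S hES using hκ'
  refine ⟨3 * M, ∑ κ ∈ Finset.range (3 * M), E κ, by omega, ?_⟩
  intro d J hJ
  obtain ⟨Z, hZc, hZ⟩ := hTRE d
  have hsum : Z.card = ∑ κ ∈ Finset.range (3 * M), (Z.filter (fun z => z % (3 * M) = κ)).card := by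
    refine Finset.card_eq_sum_card_fiberwise ?_
    intro z _
    exact Finset.mem_coe.2 (Finset.mem_range.2 (Nat.mod_lt _ (by omega)))
  have hone : ∀ κ ∈ Finset.range (3 * M), (Z.filter (fun z => z % (3 * M) = κ)).card ≤
      ρ + NN ρ Q J := by
    intro κ hκr
    rcases Finset.eq_empty_or_nonempty (Z.filter (fun z => z % (3 * M) = κ)) with he | ⟨z0, hz0⟩
    · rw [he, Finset.card_empty]
      exact Nat.zero_le _
    · have hz0' := Finset.mem_filter.1 hz0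
      have h3 : ¬ 3 ∣ κ := by
        intro h
        apply (hZ z0 hz0'.1).2.2.1
        have h4 : κ = z0 % (3 * M) := hz0'.2.symm
        rw [h4] at h
        exact (Nat.dvd_mod_iff (dvd_mul_right 3 M)).1 h
      have hy : ∀ z ∈ Z.filter (fun z => z % (3 * M) = κ), ∃ y,
          3 ^ l κ * y + S κ = 2 ^ E κ * z ∧ y ≡ ρ [MOD Q] ∧ (Reach z → Reach y) := by
        intro z hz
        have hz' := Finset.mem_filter.1 hz
        refine hES κ h3 z (hZ z hz'.1).1 ?_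
        have h5 : z ≡ κ [MOD 3 * M] := by
          show z % (3 * M) = κ % (3 * M)
          rw [hz'.2, Nat.mod_eq_of_lt (Finset.mem_range.1 hκr)]
        exact h5.of_dvd (dvd_mul_left M 3)
      choose! y hy1 hy2 hy3 using hy
      have hinj : Set.InjOn y (Z.filter (fun z => z % (3 * M) = κ) : Finset ℕ) := by
        intro z hz z' hz' hzz
        have h6 := hy1 z (Finset.mem_coe.1 hz)
        have h7 := hy1 z' (Finset.mem_coe.1 hz')
        rw [hzz, h7] at h6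
        exact (Nat.eq_of_mul_eq_mul_left (by positivity) h6).symm
      rw [← Finset.card_image_of_injOn hinj]
      refine card_Y ρ Q J hQ.pos _ ?_
      intro w hw
      obtain ⟨z, hz, rfl⟩ := Finset.mem_image.1 hw
      have hz' := Finset.mem_filter.1 hz
      obtain ⟨hz1, hz64, hz3, hzR⟩ := hZ z hz'.1
      refine ⟨?_, hy2 z hz, hy3 z hz hzR⟩
      refine lt_of_le_of_lt ?_ hJ
      have h8 := hy1 z hz
      have h9 : 1 * y z ≤ 3 ^ l κ * y z := Nat.mul_le_mul_right _ (Nat.one_le_pow _ _ (by norm_num))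
      have h10 : 2 ^ E κ * z ≤ 2 ^ (∑ κ ∈ Finset.range (3 * M), E κ) * 64 ^ d := by
        refine Nat.mul_le_mul (Nat.pow_le_pow_right (by norm_num) ?_) hz64
        exact Finset.single_le_sum (fun _ _ => Nat.zero_le _) hκr
      omega
  calc 2 ^ d = Z.card := hZc.symm
    _ = _ := hsum
    _ ≤ ∑ κ ∈ Finset.range (3 * M), (ρ + NN ρ Q J) := Finset.sum_le_sum hone
    _ = 3 * M * (ρ + NN ρ Q J) := by
      rw [Finset.sum_const, Finset.card_range, smul_eq_mul]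

private lemma sixth (a : ℝ) (ha : 0 ≤ a) : (a ^ 6) ^ (1 / 6 : ℝ) = a := by
  have h := Real.pow_rpow_inv_natCast ha (show (6 : ℕ) ≠ 0 by norm_num)
  have h2 : ((6 : ℕ) : ℝ)⁻¹ = 1 / 6 := by norm_num
  rw [h2] at h
  exact h

/-- (RAO) progressions with odd difference. -/
theorem pf_RAO (hSTE : T_STE) (hTRE : T_TRE) : T_RAO := by
  intro ρ Q hQ
  obtain ⟨M, Es, hM, hd⟩ := key hSTE hTRE ρ Q hQ
  have hM0 : (0 : ℝ) < M := by exact_mod_cast hM
  set c1 : ℝ := (M * 2 ^ (Es + 1) : ℝ)⁻¹ with hc1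
  have hc1pos : 0 < c1 := by positivity
  refine ⟨c1 / 2, by positivity, 2 ^ Es + 1 + (2 * ρ * (M * 2 ^ (Es + 1))) ^ 6, ?_⟩
  intro J hJ
  have hJ1 : 2 ^ Es < J := by omega
  have hJ2 : (2 * ρ * (M * 2 ^ (Es + 1))) ^ 6 ≤ J := le_trans (Nat.le_add_left _ _) hJ
  -- the size of `d`
  obtain ⟨d, hd1, hd2⟩ : ∃ d, 2 ^ Es * 64 ^ d < J ∧ J ≤ 2 ^ Es * 64 ^ (d + 1) := by
    have hex : ∃ n, J ≤ 2 ^ Es * 64 ^ n := by
      refine ⟨J, ?_⟩
      have h1 : J < 64 ^ J := Nat.lt_pow_self (by norm_num)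
      have h2 : 1 * 64 ^ J ≤ 2 ^ Es * 64 ^ J := Nat.mul_le_mul_right _ Nat.one_le_two_pow
      omega
    have h0 : Nat.find hex ≠ 0 := by
      intro h
      have h1 := Nat.find_spec hex
      rw [h, pow_zero, mul_one] at h1
      omega
    obtain ⟨d, hd⟩ := Nat.exists_eq_succ_of_ne_zero h0
    refine ⟨d, ?_, ?_⟩
    · have h1 := Nat.find_min hex (m := d) (by omega)
      exact not_le.1 h1
    · have h1 := Nat.find_spec hex
      rw [hd] at h1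
      exact h1
  have hkey := hd d J hd1
  have hkeyR : (2 : ℝ) ^ d ≤ M * (ρ + NN ρ Q J) := by exact_mod_cast hkey
  -- upper bound of `J^(1/6)`
  have hJ6 : (J : ℝ) ^ (1 / 6 : ℝ) ≤ 2 ^ (Es + 1) * 2 ^ d := by
    have h1 : (J : ℝ) ≤ ((2 : ℝ) ^ (Es + 1) * 2 ^ d) ^ 6 := by
      have h2 : (J : ℝ) ≤ 2 ^ Es * 64 ^ (d + 1) := by exact_mod_cast hd2
      refine h2.trans ?_
      have h3 : ((2 : ℝ) ^ (Es + 1) * 2 ^ d) ^ 6 = (2 ^ Es) ^ 6 * 64 ^ (d + 1) := by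
        rw [mul_pow, pow_succ 2 Es, mul_pow, ← pow_mul (2 : ℝ) d 6, mul_comm d 6, pow_mul,
          pow_succ (64 : ℝ) d]
        norm_num
        ring
      rw [h3]
      refine mul_le_mul_of_nonneg_right ?_ (by positivity)
      exact le_self_pow₀ (one_le_pow₀ (by norm_num)) (by norm_num)
    calc (J : ℝ) ^ (1 / 6 : ℝ) ≤ (((2 : ℝ) ^ (Es + 1) * 2 ^ d) ^ 6) ^ (1 / 6 : ℝ) :=
          Real.rpow_le_rpow (by positivity) h1 (by norm_num)
      _ = _ := sixth _ (by positivity)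
  have hlow : 2 * ρ * (M * 2 ^ (Es + 1)) ≤ (J : ℝ) ^ (1 / 6 : ℝ) := by
    have h1 : ((2 * ρ * (M * 2 ^ (Es + 1)) : ℝ)) ^ 6 ≤ J := by exact_mod_cast hJ2
    calc (2 * ρ * (M * 2 ^ (Es + 1)) : ℝ)
        = ((2 * ρ * (M * 2 ^ (Es + 1)) : ℝ) ^ 6) ^ (1 / 6 : ℝ) := (sixth _ (by positivity)).symm
      _ ≤ (J : ℝ) ^ (1 / 6 : ℝ) := Real.rpow_le_rpow (by positivity) h1 (by norm_num)
  show c1 / 2 * (J : ℝ) ^ (1 / 6 : ℝ) ≤ (NN ρ Q J : ℝ)
  set X := (J : ℝ) ^ (1 / 6 : ℝ) with hX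
  have h1 : c1 * X ≤ ρ + NN ρ Q J := by
    rw [hc1]
    rw [inv_mul_le_iff₀ (by positivity)]
    have h2 : (2 : ℝ) ^ (Es + 1) * 2 ^ d ≤ 2 ^ (Es + 1) * (M * (ρ + NN ρ Q J)) :=
      mul_le_mul_of_nonneg_left hkeyR (by positivity)
    calc X ≤ 2 ^ (Es + 1) * 2 ^ d := hJ6
      _ ≤ 2 ^ (Es + 1) * (M * (ρ + NN ρ Q J)) := h2
      _ = _ := by ring
  have h2 : 2 * (ρ : ℝ) ≤ c1 * X := by
    rw [hc1, le_inv_mul_iff₀ (by positivity)]
    calc (M * 2 ^ (Es + 1) : ℝ) * (2 * ρ) = 2 * ρ * (M * 2 ^ (Es + 1)) := by ring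
      _ ≤ X := hlow
  linarith

end Pool.Agent.H70.TGS
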