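import Pool.Agent.H70.TGS.Targets
import Pool.Agent.H17.TG.GOO

set_option autoImplicit false

open List Pool.Agent.H68.TG

namespace Pool.Agent.H70.TGS

private lemma stops_pass (hHLT : T_HLT) (n : ℕ) (q : Bool × List Bool)
    (h : Stops (tape (pass^[n] q))) : Stops (tape q) := by
  obtain ⟨k, hk⟩ := (hHLT _).1 h
  refine (hHLT _).2 ⟨k + n, ?_⟩
  rw [Function.iterate_add_apply]
  exact hk

private lemma inv_exists (w i n : ℕ) (hw : Odd w) :
    ∃ L0 i', w * L0 = i + 2 ^ n * i' := by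
  have hc : Nat.Coprime w (2 ^ n) := Nat.Coprime.pow_right _ ((Nat.coprime_two_right).2 hw)
  obtain ⟨b, hb⟩ : ∃ b, w * b ≡ 1 [MOD 2 ^ n] := by
    rcases Nat.eq_zero_or_pos n with hn | hn
    · subst hn
      exact ⟨0, by simpa using Nat.modEq_one⟩
    · have h2 : 1 < 2 ^ n := Nat.one_lt_pow (by omega) (by norm_num)
      obtain ⟨b, hb⟩ := Nat.exists_mul_mod_eq_one_of_coprime hc h2
      refine ⟨b, ?_⟩
      show _ % _ = 1 % _
      rw [hb.2, Nat.mod_eq_of_lt h2]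
  have hw1 : 1 ≤ w := hw.pos
  have h1 : w * (b * i + 2 ^ n * i) ≡ i [MOD 2 ^ n] := by
    have h2 : w * (b * i + 2 ^ n * i) = w * b * i + 2 ^ n * (w * i) := by ring
    rw [h2]
    have h3 := (hb.mul_right i)
    rw [one_mul] at h3
    refine Nat.ModEq.trans ?_ h3
    show (w * b * i + 2 ^ n * (w * i)) % 2 ^ n = (w * b * i) % 2 ^ n
    rw [Nat.add_mul_mod_self_left]
  have hge : i ≤ w * (b * i + 2 ^ n * i) := by
    have h2 : 1 ≤ 2 ^ n := Nat.one_le_two_pow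
    calc i = 1 * (1 * i) := by ring
      _ ≤ w * (2 ^ n * i) := Nat.mul_le_mul hw1 (Nat.mul_le_mul_right _ h2)
      _ ≤ w * (b * i + 2 ^ n * i) := Nat.mul_le_mul_left _ (Nat.le_add_left _ _)
  obtain ⟨i', hi'⟩ := (Nat.modEq_iff_dvd' hge).1 h1.symm
  exact ⟨b * i + 2 ^ n * i, i', by omega⟩

/-- (RDC) the configurations in a progression. -/
theorem pf_RDC (hAFF : T_AFF) (hKIC : T_KIC) (hDBL : T_DBL) (hHLT : T_HLT) (hCOL : T_COL) :
    T_RDC := by
  intro s B α x w hw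
  obtain ⟨t, i, hαt, hph⟩ := hKIC s B α x
  obtain ⟨n, rfl⟩ := Nat.exists_eq_add_of_le hαt
  obtain ⟨L0, i', hL0⟩ := inv_exists w i n hw
  obtain ⟨A, hA⟩ := hAFF (α + n) s (x + 2 ^ α * i) B
  obtain ⟨y, hy, -⟩ := Pool.Agent.H17.TG.h17_flat _ hph
  set s' := (nx^[α + n] (s, x + 2 ^ α * i, B)).1 with hs'
  set X := (nx^[α + n] (s, x + 2 ^ α * i, B)).2.1 with hX
  set B' := (nx^[α + n] (s, x + 2 ^ α * i, B)).2.2 with hB'
  have hw1 : 1 ≤ w := hw.pos
  have hAw : 1 ≤ 3 ^ A * w := Nat.one_le_iff_ne_zero.2 (by positivity)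
  refine ⟨L0 + 2 ^ n, 2 ^ n, X + 3 ^ A * (i' + w) + 2 * y - cond s' 1 0, 3 ^ A * w,
    Nat.one_le_two_pow, hAw, ?_⟩
  intro j hj
  have e1 : x + 2 ^ α * (w * (L0 + 2 ^ n + 2 ^ n * j)) =
      x + 2 ^ α * i + 2 ^ (α + n) * (i' + w * (j + 1)) := by
    have h2 : w * (L0 + 2 ^ n + 2 ^ n * j) = w * L0 + 2 ^ n * (w * (j + 1)) := by ring
    rw [h2, hL0, pow_add]
    ring
  rw [e1]
  apply stops_pass hHLT (2 * (α + n))
  rw [Pool.Agent.H17.TG.h17_iter hDBL, hA]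
  show Stops (tape (s', replicate (X + 3 ^ A * (i' + w * (j + 1))) false ++ flat B'))
  rw [hy]
  refine (hCOL _ _ _).2 ?_
  have e2 : val s' (X + 3 ^ A * (i' + w * (j + 1))) y =
      X + 3 ^ A * (i' + w) + 2 * y - cond s' 1 0 + 3 ^ A * w * j := by
    unfold val
    have h1 : 3 ^ A * (i' + w * (j + 1)) = 3 ^ A * (i' + w) + 3 ^ A * w * j := by ring
    have h2 : 1 ≤ 3 ^ A * (i' + w) := by
      have : 3 ^ A * w ≤ 3 ^ A * (i' + w) := Nat.mul_le_mul_left _ (Nat.le_add_left _ _)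
      omega
    rw [h1]
    cases s'
    · simp only [cond_false]
      omega
    · simp only [cond_true]
      omega
  rw [e2]
  exact hj

end Pool.Agent.H70.TGS
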