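import Pool.Agent.H70.TGS.Targets

set_option autoImplicit false

open List Pool.Agent.H68.TG

namespace Pool.Agent.H70.TGS

private lemma exK (q a b : ℕ) (hq : 1 ≤ q) : ∃ K < q, a + K ≡ b [MOD q] := by
  refine ⟨(b + (q - a % q)) % q, Nat.mod_lt _ hq, ?_⟩
  have h1 : a + (b + (q - a % q)) % q ≡ a + (b + (q - a % q)) [MOD q] :=
    (Nat.ModEq.refl a).add (Nat.mod_modEq _ _)
  refine h1.trans ?_
  have h2 : a + (b + (q - a % q)) = b + q * (a / q + 1) := by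
    have h3 := Nat.div_add_mod a q
    have h4 := Nat.mod_lt a hq
    rw [mul_add, mul_one]
    omega
  rw [h2]
  show (b + q * (a / q + 1)) % q = b % q
  rw [Nat.add_mul_mod_self_left]

/-- the chosen places -/
private def DD (h K : ℕ) : Finset ℕ := (Finset.range K).image (fun i => (i + 1) * h)

private def dl (h K j : ℕ) : ℕ := if j ∈ DD h K then 1 else 0

private def ee (f l h K m : ℕ) : ℕ := f * (m + 1) + dl h K (l - 1 - m)

private lemma dl_le (h K j : ℕ) : dl h K j ≤ 1 := by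
  unfold dl; split_ifs <;> omega

private lemma ee_mono (f l h K : ℕ) (hf : 2 ≤ f) : StrictMono (ee f l h K) := by
  refine strictMono_nat_of_lt_succ ?_
  intro m
  have h1 := dl_le h K (l - 1 - m)
  have h2 : f * (m + 1 + 1) = f * (m + 1) + f := by ring
  unfold ee
  rw [h2]
  omega

private lemma DD_sub (h K l q : ℕ) (hK : K ≤ q) (hl : l = q * h + 1) :
    DD h K ⊆ Finset.range l := by
  intro j hj
  simp only [DD, Finset.mem_image, Finset.mem_range] at hj ⊢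
  obtain ⟨i, hi, rfl⟩ := hj
  have : (i + 1) * h ≤ q * h := Nat.mul_le_mul_right h (by omega)
  omega

private lemma sum_split (h K l : ℕ) (hsub : DD h K ⊆ Finset.range l) :
    ∑ j ∈ Finset.range l, 3 ^ j * 2 ^ dl h K j =
      ∑ j ∈ Finset.range l, 3 ^ j + ∑ j ∈ DD h K, 3 ^ j := by
  have h1 : ∀ j ∈ Finset.range l, 3 ^ j * 2 ^ dl h K j = 3 ^ j + (if j ∈ DD h K then 3 ^ j else 0) := by
    intro j _
    unfold dl
    split_ifs
    · ring
    · ring
  rw [Finset.sum_congr rfl h1, Finset.sum_add_distrib, ← Finset.sum_filter]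
  congr 1
  refine Finset.sum_congr ?_ (fun _ _ => rfl)
  ext j
  simp only [Finset.mem_filter]
  exact ⟨fun hj => hj.2, fun hj => ⟨hsub hj, hj⟩⟩

private lemma csum_mod (n f l h K : ℕ) (hn : 2 ^ f ≡ 1 [MOD n]) :
    csum (ee f l h K) l ≡ ∑ j ∈ Finset.range l, 3 ^ j * 2 ^ dl h K j [MOD n] := by
  unfold csum
  rw [← Finset.sum_range_reflect (fun j => 3 ^ j * 2 ^ dl h K j) l]
  have key : ∀ s : Finset ℕ, ∑ m ∈ s, 3 ^ (l - 1 - m) * 2 ^ ee f l h K m ≡
      ∑ m ∈ s, 3 ^ (l - 1 - m) * 2 ^ dl h K (l - 1 - m) [MOD n] := by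
    intro s
    induction s using Finset.induction_on with
    | empty => exact Nat.ModEq.refl _
    | insert a s ha ih =>
      rw [Finset.sum_insert ha, Finset.sum_insert ha]
      refine Nat.ModEq.add ?_ ih
      refine Nat.ModEq.mul_left _ ?_
      unfold ee
      rw [pow_add, pow_mul]
      have h1 : (2 ^ f) ^ (a + 1) ≡ 1 ^ (a + 1) [MOD n] := hn.pow _
      have h2 := h1.mul_right (2 ^ dl h K (l - 1 - a))
      simpa using h2
  exact key _

private lemma sum_DD_q (q h K : ℕ) (hh : 1 ≤ h) (hq : 3 ^ h ≡ 1 [MOD q]) :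
    ∑ j ∈ DD h K, 3 ^ j ≡ K [MOD q] := by
  unfold DD
  rw [Finset.sum_image]
  · have key : ∀ k : ℕ, ∑ i ∈ Finset.range k, 3 ^ ((i + 1) * h) ≡ k [MOD q] := by
      intro k
      induction k with
      | zero => exact Nat.ModEq.refl _
      | succ k ih =>
        rw [Finset.sum_range_succ]
        refine Nat.ModEq.add ih ?_
        rw [mul_comm, pow_mul]
        have h1 : (3 ^ h) ^ (k + 1) ≡ 1 ^ (k + 1) [MOD q] := hq.pow _
        simpa using h1
    exact key K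
  · intro i _ j _ hij
    have : (i + 1) * h = (j + 1) * h := hij
    have h2 := Nat.eq_of_mul_eq_mul_right (by omega : 0 < h) this
    omega

private lemma sum_DD_g (g h K : ℕ) (hg : g ≤ h) :
    ∑ j ∈ DD h K, 3 ^ j ≡ 0 [MOD 3 ^ g] := by
  refine (Nat.modEq_zero_iff_dvd).2 ?_
  refine Finset.dvd_sum ?_
  intro j hj
  simp only [DD, Finset.mem_image, Finset.mem_range] at hj
  obtain ⟨i, hi, rfl⟩ := hj
  refine pow_dvd_pow 3 (hg.trans ?_)
  exact Nat.le_mul_of_pos_left h (by omega)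

private lemma N0_not (l : ℕ) (hl : 1 ≤ l) : ¬ 3 ∣ ∑ j ∈ Finset.range l, 3 ^ j := by
  obtain ⟨k, rfl⟩ := Nat.exists_eq_add_of_le' hl
  rw [Finset.sum_range_succ']
  intro hd
  have h1 : 3 ∣ ∑ j ∈ Finset.range k, 3 ^ (j + 1) :=
    Finset.dvd_sum (fun j _ => dvd_pow_self 3 (Nat.succ_ne_zero j))
  have h2 : 3 ∣ 3 ^ 0 := (Nat.dvd_add_right h1).1 hd
  norm_num at h2

/-- (STE) steering into a residue class. -/
theorem pf_STE (hCHN : T_CHN) (hLFT : T_LFT) (hPR2 : T_PR2) (hVA3 : T_VA3) : T_STE := by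
  intro ρ Q hQ
  have hQ0 : Q ≠ 0 := by
    rintro rfl
    exact absurd hQ (by decide)
  obtain ⟨B, q, hq3, hQB⟩ := Nat.exists_eq_pow_mul_and_not_dvd hQ0 3 (by norm_num)
  have hqo : Odd q := by
    rw [hQB] at hQ
    exact (Nat.odd_mul.1 hQ).2
  have hq1 : 1 ≤ q := hqo.pos
  have hc2 : Nat.Coprime 2 q := (Nat.coprime_two_left).2 hqo
  have hc3 : Nat.Coprime 3 q := (Nat.Prime.coprime_iff_not_dvd Nat.prime_three).2 hq3
  set φ := Nat.totient q with hφ
  have hφ1 : 1 ≤ φ := Nat.totient_pos.2 (by omega)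
  have hf2 : (2 : ℕ) ^ (2 * φ) ≡ 1 [MOD q] := by
    have h1 := Nat.ModEq.pow_totient hc2
    have h2 := h1.pow 2
    rw [← pow_mul, one_pow, mul_comm] at h2
    exact h2
  obtain ⟨g, u, hg1, hu, hfu⟩ := hVA3 (2 * φ) (by omega) (even_two_mul φ)
  have hf3 : (2 : ℕ) ^ (2 * φ) ≡ 1 [MOD 3 ^ g] := by
    rw [hfu]
    show (1 + 3 ^ g * u) % 3 ^ g = 1 % 3 ^ g
    rw [Nat.add_mul_mod_self_left]
  set h := φ * g with hh
  have hhg : g ≤ h := Nat.le_mul_of_pos_left g (by omega)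
  have hh1 : 1 ≤ h := hg1.trans hhg
  have h3h : (3 : ℕ) ^ h ≡ 1 [MOD q] := by
    have h1 := Nat.ModEq.pow_totient hc3
    have h2 := h1.pow g
    rw [← pow_mul, one_pow] at h2
    exact h2
  set l := q * h + 1 with hl
  have hl1 : 1 ≤ l := by omega
  have hgl : g ≤ l := by
    have : h ≤ q * h := Nat.le_mul_of_pos_left h (by omega)
    omega
  set f := 2 * φ with hfdef
  refine ⟨3 ^ (l + B) * q, Nat.one_le_iff_ne_zero.2 (by positivity), ?_⟩
  intro κ hκ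
  set N0 := ∑ j ∈ Finset.range l, 3 ^ j with hN0
  have hN03 : ¬ 3 ∣ N0 := N0_not l hl1
  obtain ⟨E0, hE0⟩ := hPR2 κ N0 g hκ hN03
  obtain ⟨K, hK, hKq⟩ := exK q (N0 + 3 ^ l * ρ) (2 ^ E0 * κ) hq1
  set e := ee f l h K with he
  have hemono : StrictMono e := ee_mono f l h K (by omega)
  set S := csum e l with hS
  have hsub : DD h K ⊆ Finset.range l := DD_sub h K l q hK.le hl
  have hSq : S + 3 ^ l * ρ ≡ 2 ^ E0 * κ [MOD q] := by
    have h1 : S ≡ N0 + K [MOD q] := by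
      refine (csum_mod q f l h K hf2).trans ?_
      rw [sum_split h K l hsub]
      exact (Nat.ModEq.refl _).add (sum_DD_q q h K hh1 h3h)
    have h2 := h1.add_right (3 ^ l * ρ)
    refine h2.trans ?_
    have h3 : N0 + K + 3 ^ l * ρ = N0 + 3 ^ l * ρ + K := by ring
    rw [h3]
    exact hKq
  have h3l0 : 3 ^ l * ρ ≡ 0 [MOD 3 ^ g] :=
    (Nat.modEq_zero_iff_dvd).2 ((pow_dvd_pow 3 hgl).mul_right ρ)
  have hSg : S + 3 ^ l * ρ ≡ 2 ^ E0 * κ [MOD 3 ^ g] := by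
    have h1 : S ≡ N0 [MOD 3 ^ g] := by
      refine (csum_mod (3 ^ g) f l h K hf3).trans ?_
      rw [sum_split h K l hsub]
      have := (Nat.ModEq.refl N0).add (sum_DD_g g h K hhg)
      rw [add_zero] at this
      exact this
    have h2 := h1.add h3l0
    refine h2.trans ?_
    simpa using hE0.symm
  -- the exponent
  have hcop : Nat.Coprime (2 ^ E0 * κ) (3 ^ (l + B)) := by
    refine Nat.Coprime.pow_right _ ?_
    refine Nat.Coprime.mul_left (Nat.Coprime.pow_left _ (by norm_num)) ?_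
    exact ((Nat.Prime.coprime_iff_not_dvd Nat.prime_three).2 hκ).symm
  have hbig : 1 < 3 ^ (l + B) := Nat.one_lt_pow (by omega) (by norm_num)
  obtain ⟨b, hb⟩ : ∃ b, (2 ^ E0 * κ) * b ≡ 1 [MOD 3 ^ (l + B)] := by
    obtain ⟨b, hb⟩ := Nat.exists_mul_mod_eq_one_of_coprime hcop hbig
    refine ⟨b, ?_⟩
    show _ % _ = 1 % _
    rw [hb.2, Nat.mod_eq_of_lt hbig]
  have hA1 : (S + 3 ^ l * ρ) * b ≡ 1 [MOD 3 ^ g] := by
    have h1 := hSg.mul_right b
    refine h1.trans ?_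
    exact hb.of_dvd (pow_dvd_pow 3 (by omega))
  obtain ⟨t, ht⟩ := hLFT g u ((S + 3 ^ l * ρ) * b) (l + B) hg1 hu hA1
  rw [← hfu] at ht
  have hmain : (2 ^ f) ^ t * (2 ^ E0 * κ) ≡ S + 3 ^ l * ρ [MOD 3 ^ (l + B)] := by
    have h1 := ht.mul_right (2 ^ E0 * κ)
    refine h1.trans ?_
    have h2 := hb.mul_left (S + 3 ^ l * ρ)
    rw [mul_one] at h2
    have h3 : (S + 3 ^ l * ρ) * b * (2 ^ E0 * κ) = (S + 3 ^ l * ρ) * (2 ^ E0 * κ * b) := by ring
    rw [h3]
    exact h2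
  have hmainq : (2 ^ f) ^ t * (2 ^ E0 * κ) ≡ S + 3 ^ l * ρ [MOD q] := by
    have h1 : (2 ^ f) ^ t ≡ 1 ^ t [MOD q] := hf2.pow t
    have h2 := h1.mul_right (2 ^ E0 * κ)
    rw [one_pow, one_mul] at h2
    exact h2.trans hSq.symm
  set ψ := Nat.totient (3 ^ (l + B)) with hψ
  have hψ1 : 1 ≤ ψ := Nat.totient_pos.2 (by positivity)
  have hψ3 : (2 : ℕ) ^ ψ ≡ 1 [MOD 3 ^ (l + B)] :=
    Nat.ModEq.pow_totient (Nat.Coprime.pow_right _ (by norm_num))
  set s := f * l + 2 + S with hs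
  set E := f * t + E0 + f * ψ * s with hE
  have hEs : s ≤ E := by
    have : 1 * s ≤ f * ψ * s := by
      refine Nat.mul_le_mul_right s ?_
      exact Nat.one_le_iff_ne_zero.2 (by positivity)
    omega
  have hEκ : ∀ n : ℕ, 2 ^ f ≡ 1 [MOD n] ∨ 2 ^ ψ ≡ 1 [MOD n] →
      (2 ^ f) ^ t * (2 ^ E0 * κ) ≡ S + 3 ^ l * ρ [MOD n] → 2 ^ E * κ ≡ S + 3 ^ l * ρ [MOD n] := by
    intro n hn h1
    have h2 : (2 : ℕ) ^ (f * ψ * s) ≡ 1 [MOD n] := by
      rcases hn with hn | hn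
      · have h3 := hn.pow (ψ * s)
        rw [one_pow, ← pow_mul] at h3
        have h4 : f * ψ * s = f * (ψ * s) := by ring
        rw [h4]
        exact h3
      · have h3 := hn.pow (f * s)
        rw [one_pow, ← pow_mul] at h3
        have h4 : f * ψ * s = ψ * (f * s) := by ring
        rw [h4]
        exact h3
    have h5 := h1.mul h2
    rw [mul_one] at h5
    have h6 : 2 ^ E * κ = (2 ^ f) ^ t * (2 ^ E0 * κ) * 2 ^ (f * ψ * s) := by
      rw [hE, pow_add, pow_add, pow_mul]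
      ring
    rw [h6]
    exact h5
  refine ⟨E, l, S, ?_⟩
  intro z hz hzκ
  have hz3 : 2 ^ E * z ≡ S + 3 ^ l * ρ [MOD 3 ^ (l + B)] := by
    have h1 : z ≡ κ [MOD 3 ^ (l + B)] := hzκ.of_dvd (dvd_mul_right _ _)
    exact (h1.mul_left (2 ^ E)).trans (hEκ _ (Or.inr hψ3) hmain)
  have hzq : 2 ^ E * z ≡ S + 3 ^ l * ρ [MOD q] := by
    have h1 : z ≡ κ [MOD q] := hzκ.of_dvd (dvd_mul_left _ _)
    exact (h1.mul_left (2 ^ E)).trans (hEκ _ (Or.inl hf2) hmainq)
  have hge : S ≤ 2 ^ E * z := by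
    have h1 : E < 2 ^ E := Nat.lt_two_pow_self
    have h2 : 2 ^ E * 1 ≤ 2 ^ E * z := Nat.mul_le_mul_left _ hz
    omega
  have hdvd : 3 ^ l ∣ 2 ^ E * z - S := by
    have h1 : 2 ^ E * z ≡ S [MOD 3 ^ l] := by
      have h2 : 2 ^ E * z ≡ S + 3 ^ l * ρ [MOD 3 ^ l] :=
        hz3.of_dvd (pow_dvd_pow 3 (by omega))
      refine h2.trans ?_
      show (S + 3 ^ l * ρ) % 3 ^ l = S % 3 ^ l
      rw [Nat.add_mul_mod_self_left]
    exact (Nat.modEq_iff_dvd' hge).1 h1.symm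
  obtain ⟨y, hy⟩ := hdvd
  have hyS : 3 ^ l * y + S = 2 ^ E * z := by omega
  refine ⟨y, hyS, ?_, ?_⟩
  · have h3 : 3 ^ l * y ≡ 3 ^ l * ρ [MOD 3 ^ (l + B)] := by
      have h1 : S + 3 ^ l * y ≡ S + 3 ^ l * ρ [MOD 3 ^ (l + B)] := by
        rw [add_comm S (3 ^ l * y), hyS]
        exact hz3
      exact Nat.ModEq.add_left_cancel' S h1
    have h3' : y ≡ ρ [MOD 3 ^ B] := by
      rw [pow_add] at h3
      exact Nat.ModEq.mul_left_cancel' (by positivity) h3
    have h4 : 3 ^ l * y ≡ 3 ^ l * ρ [MOD q] := by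
      have h1 : S + 3 ^ l * y ≡ S + 3 ^ l * ρ [MOD q] := by
        rw [add_comm S (3 ^ l * y), hyS]
        exact hzq
      exact Nat.ModEq.add_left_cancel' S h1
    have h4' : y ≡ ρ [MOD q] := by
      refine Nat.ModEq.cancel_left_of_coprime ?_ h4
      exact Nat.Coprime.symm (Nat.Coprime.pow_left _ hc3)
    rw [hQB]
    exact (Nat.modEq_and_modEq_iff_modEq_mul (Nat.Coprime.pow_left _ hc3)).1 ⟨h3', h4'⟩
  · refine hCHN e l E z y hemono ?_ hyS
    intro m hm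
    have h1 : e m ≤ f * l + 1 := by
      have h2 := dl_le h K (l - 1 - m)
      have h3 : f * (m + 1) ≤ f * l := Nat.mul_le_mul_left f (by omega)
      show f * (m + 1) + dl h K (l - 1 - m) ≤ f * l + 1
      omega
    omega

end Pool.Agent.H70.TGS
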