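import Pool.Agent.H70.TGS.Targets2

set_option autoImplicit false

open List Pool.Agent.H68.TG

namespace Pool.Agent.H70.TGS

private def GY (Y : ℕ) : Prop := ∃ x, 7 * x + 4 = Y ∧ Gd x

private lemma gy8 (h : T_GNB) (Y : ℕ) (hY : GY Y) : GY (8 * Y) := by
  obtain ⟨x, hx, hg⟩ := hY
  exact ⟨8 * x + 4, by omega, h.2.1 x hg⟩

private lemma gy64 (h : T_GNB) (Y : ℕ) (hY : GY Y) (j : ℕ) : GY (64 ^ j * Y) := by
  induction j with
  | zero => simpa using hY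
  | succ j ih =>
    have e : 64 ^ (j + 1) * Y = 8 * (8 * (64 ^ j * Y)) := by ring
    rw [e]
    exact gy8 h _ (gy8 h _ ih)

private lemma gy9 (h : T_GNB) (Y Y' : ℕ) (hY : GY Y) (he : 9 * Y' = 64 * Y + 39) : GY Y' := by
  obtain ⟨x, hx, hg⟩ := hY
  obtain ⟨m, rfl⟩ : ∃ m, x = 9 * m + 8 := ⟨x / 9, by omega⟩
  exact ⟨64 * m + 61, by omega, h.2.2 m hg⟩

private lemma exj3 : ∀ r : Fin 9, ∃ j : Fin 9, (64 ^ (j : ℕ) * (15 + 27 * (r : ℕ))) % 243 = 96 := by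
  decide

private lemma exj4 : ∀ r : Fin 9, ∃ j : Fin 9,
    (64 ^ (j : ℕ) * (15 + 27 * (r : ℕ))) % 243 = 123 := by
  decide

private lemma red (Y j : ℕ) (hY : Y % 27 = 15) :
    (64 ^ j * Y) % 243 = (64 ^ j * (15 + 27 * ((Y / 27) % 9))) % 243 := by
  have h1 : Y = 15 + 27 * ((Y / 27) % 9) + 243 * (Y / 27 / 9) := by omega
  have h2 : 64 ^ j * Y = 64 ^ j * (15 + 27 * ((Y / 27) % 9)) + 243 * (64 ^ j * (Y / 27 / 9)) := by
    conv_lhs => rw [h1]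
    ring
  rw [h2, Nat.add_mul_mod_self_left]

private lemma j3 (Y : ℕ) (hY : Y % 27 = 15) : ∃ j ≤ 8, (64 ^ j * Y) % 243 = 96 := by
  obtain ⟨j, hj⟩ := exj3 ⟨(Y / 27) % 9, Nat.mod_lt _ (by norm_num)⟩
  exact ⟨j, by omega, by rw [red Y _ hY]; exact hj⟩

private lemma j4 (Y : ℕ) (hY : Y % 27 = 15) : ∃ j ≤ 8, (64 ^ j * Y) % 243 = 123 := by
  obtain ⟨j, hj⟩ := exj4 ⟨(Y / 27) % 9, Nat.mod_lt _ (by norm_num)⟩
  exact ⟨j, by omega, by rw [red Y _ hY]; exact hj⟩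

private lemma pow_odd : ∀ (a b o o' : ℕ), Odd o → Odd o' → 2 ^ a * o = 2 ^ b * o' → a = b ∧ o = o' := by
  intro a
  induction a with
  | zero =>
    intro b o o' ho ho' h
    rcases b with _ | b
    · exact ⟨rfl, by simpa using h⟩
    · exfalso
      rw [pow_zero, one_mul, pow_succ] at h
      rw [h] at ho
      have : Even (2 ^ b * 2 * o') := ⟨2 ^ b * o', by ring⟩
      exact (Nat.not_even_iff_odd.2 ho) this
  | succ a ih =>
    intro b o o' ho ho' h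
    rcases b with _ | b
    · exfalso
      rw [pow_zero, one_mul, pow_succ] at h
      rw [← h] at ho'
      have : Even (2 ^ a * 2 * o) := ⟨2 ^ a * o, by ring⟩
      exact (Nat.not_even_iff_odd.2 ho') this
    · have h1 : 2 * (2 ^ a * o) = 2 * (2 ^ b * o') := by
        rw [pow_succ, pow_succ] at h
        linarith
      obtain ⟨h2, h3⟩ := ih b o o' ho ho' (by omega)
      exact ⟨by omega, h3⟩

/-- the form of the numbers of the tree -/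
private def Nd (Y : ℕ) : Prop := Y % 27 = 15 ∧ GY Y ∧ ∃ ε o, ε ≤ 1 ∧ Odd o ∧ Y = 2 ^ (3 * ε) * o

private lemma inj64 (Y Y' j j' : ℕ) (hY : Nd Y) (hY' : Nd Y') (h : 64 ^ j * Y = 64 ^ j' * Y') :
    Y = Y' := by
  obtain ⟨-, -, ε, o, hε, ho, rfl⟩ := hY
  obtain ⟨-, -, ε', o', hε', ho', rfl⟩ := hY'
  have h1 : 2 ^ (6 * j + 3 * ε) * o = 2 ^ (6 * j' + 3 * ε') * o' := by
    have e : ∀ j ε o : ℕ, 2 ^ (6 * j + 3 * ε) * o = 64 ^ j * (2 ^ (3 * ε) * o) := by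
      intro j ε o
      rw [pow_add, pow_mul]
      ring
    rw [e, e, h]
  obtain ⟨h2, h3⟩ := pow_odd _ _ _ _ ho ho' h1
  have h4 : ε = ε' := by omega
  rw [h4, h3]

private lemma tree (h : T_GNB) (d : ℕ) : ∃ Z : Finset ℕ, Z.card = 2 ^ d ∧
    ∀ Y ∈ Z, Y ≤ 312 * 2 ^ (54 * d) ∧ Nd Y := by
  classical
  induction d with
  | zero =>
    refine ⟨{312}, rfl, ?_⟩
    intro Y hY
    rw [Finset.mem_singleton] at hY
    subst hY
    refine ⟨by norm_num, by norm_num, ⟨44, by norm_num, ?_⟩, 1, 39, le_refl _, by decide,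
      by norm_num⟩
    exact h.2.1 5 h.1
  | succ d ih =>
    obtain ⟨Z, hZc, hZ⟩ := ih
    have h3 : ∀ Y ∈ Z, ∃ j ≤ 8, (64 ^ j * Y) % 243 = 96 := fun Y hY => j3 Y (hZ Y hY).2.1
    have h4 : ∀ Y ∈ Z, ∃ j ≤ 8, (64 ^ j * Y) % 243 = 123 := fun Y hY => j4 Y (hZ Y hY).2.1
    choose! a ha ha' using h3
    choose! b hb hb' using h4
    set F3 : ℕ → ℕ := fun Y => 8 * ((64 * (64 ^ a Y * Y) + 39) / 9) with hF3
    set F4 : ℕ → ℕ := fun Y => (64 * (64 ^ b Y * Y) + 39) / 9 with hF4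
    have p3 : ∀ Y ∈ Z, 9 * ((64 * (64 ^ a Y * Y) + 39) / 9) = 64 * (64 ^ a Y * Y) + 39 := by
      intro Y hY
      have := ha' Y hY
      omega
    have p4 : ∀ Y ∈ Z, 9 * ((64 * (64 ^ b Y * Y) + 39) / 9) = 64 * (64 ^ b Y * Y) + 39 := by
      intro Y hY
      have := hb' Y hY
      omega
    have o3 : ∀ Y ∈ Z, Odd ((64 * (64 ^ a Y * Y) + 39) / 9) := by
      intro Y hY
      have := p3 Y hY
      rw [Nat.odd_iff]
      omega
    have o4 : ∀ Y ∈ Z, Odd ((64 * (64 ^ b Y * Y) + 39) / 9) := by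
      intro Y hY
      have := p4 Y hY
      rw [Nat.odd_iff]
      omega
    have i3 : Set.InjOn F3 (Z : Finset ℕ) := by
      intro Y hY Y' hY' he
      have he' : 8 * ((64 * (64 ^ a Y * Y) + 39) / 9) = 8 * ((64 * (64 ^ a Y' * Y') + 39) / 9) := he
      have q1 := p3 Y hY
      have q2 := p3 Y' hY'
      refine inj64 Y Y' (a Y) (a Y') (hZ Y hY).2 (hZ Y' hY').2 ?_
      omega
    have i4 : Set.InjOn F4 (Z : Finset ℕ) := by
      intro Y hY Y' hY' he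
      have he' : (64 * (64 ^ b Y * Y) + 39) / 9 = (64 * (64 ^ b Y' * Y') + 39) / 9 := he
      have q1 := p4 Y hY
      have q2 := p4 Y' hY'
      refine inj64 Y Y' (b Y) (b Y') (hZ Y hY).2 (hZ Y' hY').2 ?_
      omega
    have hdisj : Disjoint (Z.image F3) (Z.image F4) := by
      rw [Finset.disjoint_left]
      intro w hw hw'
      obtain ⟨Y, hY, rfl⟩ := Finset.mem_image.1 hw
      obtain ⟨Y', hY', he⟩ := Finset.mem_image.1 hw'
      have h5 := o4 Y' hY'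
      have he' : (64 * (64 ^ b Y' * Y') + 39) / 9 = 8 * ((64 * (64 ^ a Y * Y) + 39) / 9) := he
      rw [he', Nat.odd_iff] at h5
      omega
    have hbd : ∀ (j Y : ℕ), j ≤ 8 → Y ≤ 312 * 2 ^ (54 * d) →
        64 * (64 ^ j * Y) ≤ 312 * 2 ^ (54 * (d + 1)) := by
      intro j Y hj hY
      have h5 : 64 ^ j ≤ 64 ^ 8 := Nat.pow_le_pow_right (by norm_num) hj
      calc 64 * (64 ^ j * Y) ≤ 64 * (64 ^ 8 * (312 * 2 ^ (54 * d))) :=
            Nat.mul_le_mul_left _ (Nat.mul_le_mul h5 hY)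
        _ = 312 * 2 ^ (54 * (d + 1)) := by
            rw [mul_add, pow_add]
            ring
    refine ⟨Z.image F3 ∪ Z.image F4, ?_, ?_⟩
    · rw [Finset.card_union_of_disjoint hdisj, Finset.card_image_of_injOn i3,
        Finset.card_image_of_injOn i4, hZc]
      ring
    · intro w hw
      rcases Finset.mem_union.1 hw with hw | hw
      · obtain ⟨Y, hY, rfl⟩ := Finset.mem_image.1 hw
        obtain ⟨hYb, hYn⟩ := hZ Y hY
        have q1 := p3 Y hY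
        have q2 := ha' Y hY
        have q3 := hbd (a Y) Y (ha Y hY) hYb
        show 8 * ((64 * (64 ^ a Y * Y) + 39) / 9) ≤ _ ∧ Nd (8 * ((64 * (64 ^ a Y * Y) + 39) / 9))
        refine ⟨by omega, by omega, ?_, 1, _, le_refl _, o3 Y hY, by norm_num⟩
        exact gy8 h _ (gy9 h _ _ (gy64 h Y hYn.2.1 (a Y)) q1)
      · obtain ⟨Y, hY, rfl⟩ := Finset.mem_image.1 hw
        obtain ⟨hYb, hYn⟩ := hZ Y hY
        have q1 := p4 Y hY
        have q2 := hb' Y hY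
        have q3 := hbd (b Y) Y (hb Y hY) hYb
        show (64 * (64 ^ b Y * Y) + 39) / 9 ≤ _ ∧ Nd ((64 * (64 ^ b Y * Y) + 39) / 9)
        refine ⟨by omega, by omega, ?_, 0, _, by norm_num, o4 Y hY, by norm_num⟩
        exact gy9 h _ _ (gy64 h Y hYn.2.1 (b Y)) q1

/-- (TRX) many exceptional numbers. -/
theorem pf_TRX (h : T_GNB) : T_TRX := by
  classical
  intro d
  obtain ⟨Z, hZc, hZ⟩ := tree h d
  have hx : ∀ Y ∈ Z, 7 * ((Y - 4) / 7) + 4 = Y ∧ Gd ((Y - 4) / 7) := by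
    intro Y hY
    obtain ⟨-, -, ⟨x, hx, hg⟩, -⟩ := hZ Y hY
    have : (Y - 4) / 7 = x := by omega
    rw [this]
    exact ⟨hx, hg⟩
  refine ⟨Z.image (fun Y => (Y - 4) / 7), ?_, ?_⟩
  · rw [Finset.card_image_of_injOn, hZc]
    intro Y hY Y' hY' he
    have he' : (Y - 4) / 7 = (Y' - 4) / 7 := he
    have h1 := (hx Y hY).1
    have h2 := (hx Y' hY').1
    omega
  · intro x hxx
    obtain ⟨Y, hY, rfl⟩ := Finset.mem_image.1 hxx
    obtain ⟨h1, h2⟩ := hx Y hY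
    have h3 := (hZ Y hY).1
    exact ⟨by omega, h2⟩

private lemma fin55 (N d c : ℕ) (hcard : 2 ^ d ≤ c) (hN2 : (N : ℝ) ≤ ((2 : ℝ) ^ d) ^ (55 : ℕ)) :
    (N : ℝ) ^ (1 / 55 : ℝ) ≤ (c : ℝ) := by
  have e1 : (N : ℝ) ^ (1 / 55 : ℝ) ≤ (((2 : ℝ) ^ d) ^ (55 : ℕ)) ^ (1 / 55 : ℝ) :=
    Real.rpow_le_rpow (Nat.cast_nonneg N) hN2 (by norm_num)
  have e2 : (((2 : ℝ) ^ d) ^ (55 : ℕ)) ^ (1 / 55 : ℝ) = 2 ^ d := by
    have h1 := Real.pow_rpow_inv_natCast (x := (2 : ℝ) ^ d) (by positivity)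
      (show (55 : ℕ) ≠ 0 by norm_num)
    have h2 : ((55 : ℕ) : ℝ)⁻¹ = 1 / 55 := by norm_num
    rw [h2] at h1
    exact h1
  have e3 : (2 : ℝ) ^ d ≤ c := by exact_mod_cast hcard
  linarith

private lemma exd (K N : ℕ) (hN : 312 * 2 ^ (54 * K) ≤ N) :
    ∃ d, K ≤ d ∧ 312 * 2 ^ (54 * d) ≤ N ∧ N < 312 * 2 ^ (54 * (d + 1)) := by
  have hex : ∃ n, N < 312 * 2 ^ (54 * (n + 1)) := by
    refine ⟨N, ?_⟩
    have h1 : 54 * (N + 1) < 2 ^ (54 * (N + 1)) := Nat.lt_two_pow_self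
    omega
  have h1 := Nat.find_spec hex
  have hKf : K ≤ Nat.find hex := by
    by_contra hc
    have hc' : Nat.find hex + 1 ≤ K := by omega
    have h2 : 2 ^ (54 * (Nat.find hex + 1)) ≤ 2 ^ (54 * K) :=
      Nat.pow_le_pow_right (by norm_num) (Nat.mul_le_mul_left 54 hc')
    have h3 : 312 * 2 ^ (54 * (Nat.find hex + 1)) ≤ 312 * 2 ^ (54 * K) :=
      Nat.mul_le_mul_left _ h2
    exact absurd (lt_of_lt_of_le h1 (h3.trans hN)) (lt_irrefl _)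
  refine ⟨Nat.find hex, hKf, ?_, h1⟩
  rcases Nat.eq_zero_or_pos (Nat.find hex) with h0 | h0
  · have hK0 : K = 0 := by omega
    rw [h0]
    rw [hK0] at hN
    exact hN
  · obtain ⟨n, hn⟩ := Nat.exists_eq_add_of_le' h0
    have h2 := Nat.find_min hex (m := n) (by omega)
    rw [hn]
    exact not_lt.1 h2

private lemma up55 (N d : ℕ) (hd : 63 ≤ d) (h : N < 312 * 2 ^ (54 * (d + 1))) :
    (N : ℝ) ≤ ((2 : ℝ) ^ d) ^ (55 : ℕ) := by
  have h2 : 312 * 2 ^ (54 * (d + 1)) ≤ 2 ^ (d * 55) := by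
    calc 312 * 2 ^ (54 * (d + 1)) ≤ 2 ^ 9 * 2 ^ (54 * (d + 1)) :=
          Nat.mul_le_mul_right _ (by norm_num)
      _ = 2 ^ (9 + 54 * (d + 1)) := by rw [pow_add]
      _ ≤ 2 ^ (d * 55) := Nat.pow_le_pow_right (by norm_num) (by omega)
  have h1 : N ≤ 2 ^ (d * 55) := h.le.trans h2
  rw [← pow_mul]
  exact_mod_cast h1

/-- (EXC) the count of exceptional numbers. -/
theorem pf_EXC (h : T_TRX) : T_EXC := by
  obtain ⟨K, hK⟩ : ∃ K : ℕ, K = 63 := ⟨63, rfl⟩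
  refine ⟨312 * 2 ^ (54 * K), ?_⟩
  intro N hN
  obtain ⟨d, hd1, hd2, hd3⟩ := exd K N hN
  obtain ⟨Z, hZc, hZ⟩ := h d
  have hcard : 2 ^ d ≤ ({n : ℕ | n < N ∧ Gd n}).ncard := by
    rw [← hZc, ← Set.ncard_coe_finset]
    refine Set.ncard_le_ncard ?_ ((Set.finite_lt_nat N).subset (fun _ h => h.1))
    intro x hx
    obtain ⟨h1, h2⟩ := hZ x (Finset.mem_coe.1 hx)
    exact ⟨lt_of_lt_of_le h1 hd2, h2⟩
  exact fin55 N d _ hcard (up55 N d (by omega) hd3)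

end Pool.Agent.H70.TGS
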