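import Pool.Agent.H70.TGS.Targets

set_option autoImplicit false

open List Pool.Agent.H68.TG Pool.Agent.H5.CF

namespace Pool.Agent.H70.TGS

private lemma upd_sum (per : Finset (Fin 2 → ℕ)) (c : (Fin 2 → ℕ) → ℕ) (e : Fin 2 → ℕ) (a : ℕ)
    (he : e ∈ per) (i : Fin 2) :
    (∑ x ∈ per, Function.update c e a x * x i) + c e * e i = (∑ x ∈ per, c x * x i) + a * e i := by
  classical
  rw [← Finset.add_sum_erase per (fun x => Function.update c e a x * x i) he,
    ← Finset.add_sum_erase per (fun x => c x * x i) he]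
  have h1 : ∑ x ∈ per.erase e, Function.update c e a x * x i = ∑ x ∈ per.erase e, c x * x i := by
    refine Finset.sum_congr rfl ?_
    intro x hx
    rw [Function.update_of_ne (Finset.ne_of_mem_erase hx)]
  simp only [Function.update_self]
  rw [h1]
  omega

private lemma mem_iff (X : LinSet 2) (n : ℕ) : ![n, 1] ∈ X.toSet ↔
    ∃ c : (Fin 2 → ℕ) → ℕ, n = X.base 0 + ∑ e ∈ X.per, c e * e 0 ∧
      1 = X.base 1 + ∑ e ∈ X.per, c e * e 1 := by
  unfold LinSet.toSet
  simp only [Set.mem_ofPred_eq]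
  constructor
  · rintro ⟨c, hc⟩
    refine ⟨c, ?_, ?_⟩
    · have := congrFun hc 0
      simpa [Finset.sum_apply] using this
    · have := congrFun hc 1
      simpa [Finset.sum_apply] using this
  · rintro ⟨c, h0, h1⟩
    refine ⟨c, ?_⟩
    funext i
    fin_cases i
    · simpa [Finset.sum_apply] using h0
    · simpa [Finset.sum_apply] using h1

private lemma sec (X : LinSet 2) : ∃ P n0 : ℕ, 1 ≤ P ∧
    ∀ n ≥ n0, (![n, 1] ∈ X.toSet ↔ ![n + P, 1] ∈ X.toSet) := by
  classical
  set per0 := X.per.filter (fun e => e 1 = 0 ∧ e 0 ≠ 0) with hper0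
  -- the contribution of the other periods is bounded
  have hoth : ∀ c : (Fin 2 → ℕ) → ℕ, 1 = X.base 1 + ∑ e ∈ X.per, c e * e 1 →
      ∑ e ∈ X.per, c e * e 0 ≤ ∑ e ∈ per0, c e * e 0 + ∑ e ∈ X.per, e 0 := by
    intro c hc
    have h1 : ∑ e ∈ per0, c e * e 0 = ∑ e ∈ X.per, if e 1 = 0 ∧ e 0 ≠ 0 then c e * e 0 else 0 := by
      rw [hper0, Finset.sum_filter]
    rw [h1, ← Finset.sum_add_distrib]
    refine Finset.sum_le_sum ?_
    intro e he
    split_ifs with h
    · omega
    · by_cases h1 : e 1 = 0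
      · have h2 : e 0 = 0 := by
          by_contra h2
          exact h ⟨h1, h2⟩
        simp [h2]
      · have h2 : c e * e 1 ≤ 1 := by
          have h3 : c e * e 1 ≤ ∑ e ∈ X.per, c e * e 1 :=
            Finset.single_le_sum (f := fun e : Fin 2 → ℕ => c e * e 1)
              (fun _ _ => Nat.zero_le _) he
          omega
        have h3 : c e ≤ 1 := by
          have h4 : c e * 1 ≤ c e * e 1 := Nat.mul_le_mul_left _ (by omega)
          omega
        have h5 : c e * e 0 ≤ 1 * e 0 := Nat.mul_le_mul_right _ h3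
        omega
  by_cases hne : per0 = ∅
  · refine ⟨1, X.base 0 + ∑ e ∈ X.per, e 0 + 1, le_refl _, ?_⟩
    intro n hn
    have hno : ∀ m, n ≤ m → ![m, 1] ∉ X.toSet := by
      intro m hm hmem
      obtain ⟨c, h0, h1⟩ := (mem_iff X m).1 hmem
      have h2 := hoth c h1
      rw [hne, Finset.sum_empty] at h2
      omega
    exact ⟨fun h => absurd h (hno n (le_refl _)), fun h => absurd h (hno (n + 1) (by omega))⟩
  · obtain ⟨e0, he0⟩ := Finset.nonempty_iff_ne_empty.2 hne
    have hpos : ∀ e ∈ per0, e ∈ X.per ∧ e 1 = 0 ∧ e 0 ≠ 0 := by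
      intro e he
      simpa [hper0] using he
    set P := ∏ e ∈ per0, e 0 with hP
    have hP1 : 1 ≤ P := by
      refine Nat.one_le_iff_ne_zero.2 ?_
      exact Finset.prod_ne_zero_iff.2 (fun e he => (hpos e he).2.2)
    refine ⟨P, X.base 0 + ∑ e ∈ X.per, e 0 + per0.card * P + 1, hP1, ?_⟩
    intro n hn
    constructor
    · intro hmem
      obtain ⟨c, h0, h1⟩ := (mem_iff X n).1 hmem
      obtain ⟨P', hP'⟩ : e0 0 ∣ P := Finset.dvd_prod_of_mem (fun e : Fin 2 → ℕ => e 0) he0
      obtain ⟨hX, hz, hnz⟩ := hpos e0 he0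
      refine (mem_iff X (n + P)).2 ⟨Function.update c e0 (c e0 + P'), ?_, ?_⟩
      · have h2 := upd_sum X.per c e0 (c e0 + P') hX 0
        have h3 : (c e0 + P') * e0 0 = c e0 * e0 0 + P := by rw [hP']; ring
        omega
      · have h2 := upd_sum X.per c e0 (c e0 + P') hX 1
        rw [hz, mul_zero, mul_zero] at h2
        omega
    · intro hmem
      obtain ⟨c, h0, h1⟩ := (mem_iff X (n + P)).1 hmem
      have h2 := hoth c h1
      have h3 : ∃ e ∈ per0, P ≤ c e * e 0 := by
        by_contra hcon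
        push Not at hcon
        have h4 : ∑ e ∈ per0, c e * e 0 ≤ per0.card • P :=
          Finset.sum_le_card_nsmul _ _ _ (fun e he => (hcon e he).le)
        rw [smul_eq_mul] at h4
        omega
      obtain ⟨e1, he1, hce⟩ := h3
      obtain ⟨P', hP'⟩ : e1 0 ∣ P := Finset.dvd_prod_of_mem (fun e : Fin 2 → ℕ => e 0) he1
      obtain ⟨hX, hz, hnz⟩ := hpos e1 he1
      have h5 : P' ≤ c e1 := by
        rw [hP', mul_comm] at hce
        exact Nat.le_of_mul_le_mul_right hce (Nat.pos_of_ne_zero hnz)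
      obtain ⟨d, hd⟩ := Nat.exists_eq_add_of_le h5
      refine (mem_iff X n).2 ⟨Function.update c e1 d, ?_, ?_⟩
      · have h6 := upd_sum X.per c e1 d hX 0
        have h7 : c e1 * e1 0 = P + d * e1 0 := by rw [hd, hP']; ring
        omega
      · have h6 := upd_sum X.per c e1 d hX 1
        rw [hz, mul_zero, mul_zero] at h6
        omega

private lemma sec_mul (X : LinSet 2) (P n0 : ℕ)
    (h : ∀ n ≥ n0, (![n, 1] ∈ X.toSet ↔ ![n + P, 1] ∈ X.toSet)) (k : ℕ) :
    ∀ n ≥ n0, (![n, 1] ∈ X.toSet ↔ ![n + P * k, 1] ∈ X.toSet) := by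
  induction k with
  | zero => intro n _; simp
  | succ k ih =>
    intro n hn
    rw [ih n hn, h (n + P * k) (by omega)]
    have : n + P * k + P = n + P * (k + 1) := by ring
    rw [this]

/-- (UPC) the sections of a context-free language are ultimately periodic. -/
theorem pf_UPC (hST : TargetST) : T_UPC := by
  classical
  intro L v hL hv
  obtain ⟨g, rfl⟩ := hL
  obtain ⟨𝒮, hfin, -, h𝒮⟩ := hST (Fin 3) g 2 ![[0], v] (by
    intro i
    fin_cases i
    · simp
    · simpa using hv)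
  choose P n0 hP hn using sec
  have hpat : ∀ n : ℕ, pat ![[(0 : Fin 3)], v] ![n, 1] = replicate n 0 ++ v := by
    intro n
    unfold pat
    have h1 : ∀ n : ℕ, (replicate n [(0 : Fin 3)]).flatten = replicate n 0 := by
      intro n
      induction n with
      | zero => rfl
      | succ n ih => rw [replicate_succ, flatten_cons, ih, replicate_succ]; rfl
    simp [List.ofFn_succ, h1]
  refine ⟨∏ X ∈ hfin.toFinset, P X, ∑ X ∈ hfin.toFinset, n0 X, ?_, ?_⟩
  · refine Nat.one_le_iff_ne_zero.2 ?_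
    refine Finset.prod_ne_zero_iff.2 (fun X _ => ?_)
    have := hP X
    omega
  · intro n hnn
    rw [← hpat, ← hpat, h𝒮, h𝒮]
    have key : ∀ X ∈ 𝒮, (![n, 1] ∈ X.toSet ↔
        ![n + ∏ X ∈ hfin.toFinset, P X, 1] ∈ X.toSet) := by
      intro X hX
      have hX' : X ∈ hfin.toFinset := hfin.mem_toFinset.2 hX
      obtain ⟨k, hk⟩ : P X ∣ ∏ X ∈ hfin.toFinset, P X := Finset.dvd_prod_of_mem P hX'
      rw [hk]
      refine sec_mul X (P X) (n0 X) (hn X) k n ?_
      have : n0 X ≤ ∑ X ∈ hfin.toFinset, n0 X :=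
        Finset.single_le_sum (fun _ _ => Nat.zero_le _) hX'
      omega
    constructor
    · rintro ⟨X, hX, hm⟩
      exact ⟨X, hX, (key X hX).1 hm⟩
    · rintro ⟨X, hX, hm⟩
      exact ⟨X, hX, (key X hX).2 hm⟩

end Pool.Agent.H70.TGS
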