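import Pool.Agent.H68.TG.All
import Pool.Agent.H5.CF.ST
import Pool.Agent.H95.CF.M1
import Pool.Agent.H90.CF.M2
import Pool.Agent.H90.CF.M2a
import Pool.Agent.H90.CF.M3
import Pool.Agent.H33.TGS.AFF
import Pool.Agent.H33.TGS.CHN
import Pool.Agent.H33.TGS.CNA
import Pool.Agent.H33.TGS.KIC
import Pool.Agent.H33.TGS.KIL
import Pool.Agent.H33.TGS.LFT
import Pool.Agent.H33.TGS.NSF
import Pool.Agent.H33.TGS.PR2
import Pool.Agent.H33.TGS.RCB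
import Pool.Agent.H33.TGS.VA3
import Pool.Agent.H41.TGS.TRE
import Pool.Agent.H70.TGS.STE
import Pool.Agent.H70.TGS.RAO
import Pool.Agent.H70.TGS.RAG
import Pool.Agent.H70.TGS.RDC
import Pool.Agent.H70.TGS.FZ
import Pool.Agent.H70.TGS.FD
import Pool.Agent.H70.TGS.UPC
import Pool.Agent.H70.TGS.MAI
import Pool.Agent.H70.TGS.CLS
import Pool.Agent.H70.TGS.CYC
import Pool.Agent.H70.TGS.GNB
import Pool.Agent.H70.TGS.TRX
import Pool.Agent.H70.TGS.MA2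
import Pool.Agent.H70.TGS.NCY

/-!
# De Mol's tag system S₂ (problem MP_c95a35_lc): the theorems
-/

set_option autoImplicit false

open List Pool.Agent.H68.TG

namespace Pool.Agent.H70.TGS

theorem y_RCB : T_RCB := Pool.Agent.H33.TGS.pf_RCB

theorem y_LFT : T_LFT := Pool.Agent.H33.TGS.pf_LFT

theorem y_STE : T_STE := pf_STE (Pool.Agent.H33.TGS.pf_CHN y_RCB) y_LFT
  (Pool.Agent.H33.TGS.pf_PR2 y_LFT) Pool.Agent.H33.TGS.pf_VA3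

theorem y_RAG : T_RAG := pf_RAG y_RCB (pf_RAO y_STE (Pool.Agent.H41.TGS.pf_TRE y_RCB))

theorem y_AFF : T_AFF := Pool.Agent.H33.TGS.pf_AFF

theorem y_KIC : T_KIC := Pool.Agent.H33.TGS.pf_KIC y_AFF
  (Pool.Agent.H33.TGS.pf_KIL Pool.Agent.H30.TG.pf_CNT Pool.Agent.H99.TG.pf_MAB
    Pool.Agent.H11.TG.pf_MAJ)

theorem y_RDC : T_RDC := pf_RDC y_AFF y_KIC x_DBL x_HLT x_COL

theorem y_UPC : T_UPC := pf_UPC
  (Pool.Agent.H5.CF.ST_of Pool.Agent.H95.CF.M1_holds Pool.Agent.H5.CF.M2_holds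
    Pool.Agent.H5.CF.M3_holds)

theorem y_MAI : T_MAI := pf_MAI
  (pf_FZ y_RDC (Pool.Agent.H75.TG.pf_NZF x_RDW x_RDB x_FSH))
  (pf_FD y_RDC (Pool.Agent.H75.TG.pf_NDF x_RDW x_RDB x_FSH))
  (Pool.Agent.H33.TGS.pf_CNA y_RAG) (Pool.Agent.H33.TGS.pf_NSF x_DBL x_HLT) y_UPC

theorem y_MA2 : T_MA2 := pf_MA2 y_MAI pf_CLS pf_CYC (pf_CYN pf_CLS pf_CYC)
  (pf_EXC (pf_TRX (pf_GNB pf_CLS x_PAS x_DBL))) (pf_BUP y_UPC)

theorem y_NCY (m : ℕ) : (Cyc m).Finite ∧ 2 ^ m ≤ (60 * m + 40) * (Cyc m).ncard :=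
  pf_NCY pf_CYC (fun q => (y_MA2.2.1 q).2) m

end Pool.Agent.H70.TGS
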