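import Pool.Agent.H70.TGS.Targets2

set_option autoImplicit false

open List Pool.Agent.H68.TG

namespace Pool.Agent.H70.TGS

private lemma per_mul (F : ℕ → Prop) (P n0 : ℕ) (h : ∀ n ≥ n0, (F n ↔ F (n + P))) (k : ℕ) :
    ∀ n ≥ n0, (F n ↔ F (n + P * k)) := by
  induction k with
  | zero => intro n _; simp
  | succ k ih =>
    intro n hn
    rw [ih n hn, h (n + P * k) (by omega)]
    have : n + P * k + P = n + P * (k + 1) := by ring
    rw [this]

/-- (BUP) sections of Boolean combinations of context-free languages. -/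
theorem pf_BUP (hUPC : T_UPC) : T_BUP := by
  intro L v hL hv
  induction hL with
  | cf L h => exact hUPC L v h hv
  | compl L _ ih =>
    obtain ⟨P, n0, hP, hn⟩ := ih
    exact ⟨P, n0, hP, fun n hnn => not_congr (hn n hnn)⟩
  | inter L M _ _ ih1 ih2 =>
    obtain ⟨P, n0, hP, hn⟩ := ih1
    obtain ⟨P', n0', hP', hn'⟩ := ih2
    refine ⟨P * P', n0 + n0', Nat.one_le_iff_ne_zero.2 (by positivity), fun n hnn => ?_⟩
    have h1 := per_mul (fun n => replicate n 0 ++ v ∈ L) P n0 hn P' n (by omega)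
    have h2 := per_mul (fun n => replicate n 0 ++ v ∈ M) P' n0' hn' P n (by omega)
    rw [mul_comm P' P] at h2
    exact and_congr h1 h2

/-- (MA2) the theorem. -/
theorem pf_MA2 (hMAI : T_MAI) (hCLS : T_CLS) (hCYC : T_CYC) (hCYN : T_CYN) (hEXC : T_EXC)
    (hBUP : T_BUP) : T_MA2 := by
  obtain ⟨hA, hNSF, -, -⟩ := hMAI
  have hcl : ∀ w : List (Fin 3), ¬ Cl w → 2 ≤ w.length ∧ ¬ Two w := by
    intro w hw
    refine ⟨?_, fun h => hw (hCLS.2.1 w h)⟩
    by_contra h
    exact hw (hCLS.2.2.1 w (by omega))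
  -- members of every progression beyond every bound
  have hinf : ∀ (v : List (Fin 3)) (a q m : ℕ), 1 ≤ q →
      ∃ n, m ≤ n ∧ n ≡ a [MOD q] ∧ Stops (replicate n 0 ++ v) := by
    intro v a q m hq
    by_contra hcon
    push Not at hcon
    obtain ⟨N0, hN0⟩ := hA [] v a q hq
    have h1 := (hN0 (N0 + (m + 1) ^ 7) (by omega)).1
    have h2 : {n : ℕ | n < N0 + (m + 1) ^ 7 ∧ n ≡ a [MOD q] ∧
        Stops (([] : List (Fin 3)) ++ replicate n 0 ++ v)} ⊆ {n : ℕ | n < m} := by
      intro n hn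
      by_contra h
      have h3 : m ≤ n := not_lt.1 h
      exact hcon n h3 hn.2.1 (by simpa using hn.2.2)
    have h3 := Set.ncard_le_ncard h2 (Set.finite_lt_nat m)
    have h4 : ({n : ℕ | n < m}).ncard = m := by
      have : {n : ℕ | n < m} = ((Finset.range m : Finset ℕ) : Set ℕ) := by
        ext n; simp
      rw [this, Set.ncard_coe_finset, Finset.card_range]
    rw [h4] at h3
    have h5 : ((m + 1 : ℕ) : ℝ) ≤ ((N0 + (m + 1) ^ 7 : ℕ) : ℝ) ^ (1 / 7 : ℝ) := by
      have h6 := Real.pow_rpow_inv_natCast (x := ((m + 1 : ℕ) : ℝ)) (by positivity)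
        (show (7 : ℕ) ≠ 0 by norm_num)
      have h7 : ((7 : ℕ) : ℝ)⁻¹ = 1 / 7 := by norm_num
      rw [h7] at h6
      calc ((m + 1 : ℕ) : ℝ) = (((m + 1 : ℕ) : ℝ) ^ 7) ^ (1 / 7 : ℝ) := h6.symm
        _ ≤ _ := by
          refine Real.rpow_le_rpow (by positivity) ?_ (by norm_num)
          push_cast
          have : (0 : ℝ) ≤ N0 := Nat.cast_nonneg _
          linarith
    have h8 : ((m + 1 : ℕ) : ℝ) ≤ ((m : ℕ) : ℝ) := by
      refine h5.trans (h1.trans ?_)
      exact_mod_cast h3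
    have h9 : m + 1 ≤ m := by exact_mod_cast h8
    omega
  refine ⟨hA, ?_, ?_, ?_⟩
  · intro q
    exact ⟨hCYC q, fun k => hcl _ (hCYN q k)⟩
  · obtain ⟨N0, hN0⟩ := hEXC
    refine ⟨N0, fun N hN => (hN0 N hN).trans ?_⟩
    have h1 : {n : ℕ | n < N ∧ Gd n} ⊆ {n : ℕ | n < N ∧
        ∀ k, 2 ≤ (step^[k] (replicate n 0 ++ [1, 2] ++ replicate 6 0)).length ∧
          ¬ Two (step^[k] (replicate n 0 ++ [1, 2] ++ replicate 6 0))} := by
      intro n hn
      exact ⟨hn.1, fun k => hcl _ (hn.2 k)⟩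
    exact_mod_cast Set.ncard_le_ncard h1 ((Set.finite_lt_nat N).subset (fun _ h => h.1))
  · intro hB
    obtain ⟨P, n0, hP, hh⟩ := hBUP _ ([1, 2] ++ replicate 6 0) hB (by simp)
    have hh' : ∀ n ≥ n0, (Stops (replicate n 0 ++ ([1, 2] ++ replicate 6 0)) ↔
        Stops (replicate (n + P) 0 ++ ([1, 2] ++ replicate 6 0))) := hh
    obtain ⟨x, hx, hxn⟩ : ∃ x, 7 * x + 4 = 39 * 8 ^ n0 ∧ n0 ≤ x := by
      have h1 : ∀ k, ∃ x, 7 * x + 4 = 39 * 8 ^ k ∧ k ≤ x := by
        intro k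
        induction k with
        | zero => exact ⟨5, by norm_num, by omega⟩
        | succ k ih =>
          obtain ⟨x, hx, hk⟩ := ih
          refine ⟨8 * x + 4, ?_, by omega⟩
          rw [pow_succ]
          omega
      exact h1 n0
    have hns := hNSF n0 x hx
    rw [append_assoc] at hns
    have h2 : ∀ i, ¬ Stops (replicate (x + P * i) 0 ++ ([1, 2] ++ replicate 6 0)) := by
      intro i
      induction i with
      | zero => simpa using hns
      | succ i ih =>
        have h3 : x + P * (i + 1) = x + P * i + P := by ring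
        rw [h3, ← hh' (x + P * i) (by omega)]
        exact ih
    obtain ⟨n, hxn', hmod, hst⟩ := hinf ([1, 2] ++ replicate 6 0) x P x hP
    obtain ⟨i, hi⟩ := (Nat.modEq_iff_dvd' hxn').1 hmod.symm
    apply h2 i
    have h4 : x + P * i = n := by omega
    rw [h4]
    exact hst

end Pool.Agent.H70.TGS
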