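import Pool.Agent.H68.TG.Targets
import Pool.Agent.H5.CF.Targets

/-!
# De Mol's tag system S₂ (problem MP_c95a35_lc): unconditional stopping in every family, targets
-/

set_option autoImplicit false

open List Pool.Agent.H68.TG

namespace Pool.Agent.H70.TGS

/-! ### The `3x+1` map -/

/-- (RCB) basic rules. -/
def T_RCB : Prop := (∀ w, Reach (2 * w) ↔ Reach w) ∧ (∀ o, Odd o → (Reach (3 * o + 1) ↔ Reach o)) ∧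
  (∀ e w, Reach (2 ^ e * w) ↔ Reach w) ∧ ∀ α x, Reach (T^[α] x) → Reach x

/-- the sum in the formula for the iterates -/
def csum (e : ℕ → ℕ) (l : ℕ) : ℕ := ∑ m ∈ Finset.range l, 3 ^ (l - 1 - m) * 2 ^ e m

/-- (CHN) a chain of `l` odd steps. -/
def T_CHN : Prop := ∀ (e : ℕ → ℕ) (l E z y : ℕ), StrictMono e → (∀ m < l, e m < E) →
  3 ^ l * y + csum e l = 2 ^ E * z → Reach z → Reach y

/-- (LFT) powers of `1 + 3^g u`. -/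
def T_LFT : Prop := ∀ g u A J : ℕ, 1 ≤ g → ¬ 3 ∣ u → A ≡ 1 [MOD 3 ^ g] →
  ∃ t, (1 + 3 ^ g * u) ^ t ≡ A [MOD 3 ^ J]

/-- (PR2) `2` is a primitive root modulo `3^g`. -/
def T_PR2 : Prop := ∀ κ A g : ℕ, ¬ 3 ∣ κ → ¬ 3 ∣ A → ∃ E, 2 ^ E * κ ≡ A [MOD 3 ^ g]

/-- (VA3) the form of `2^f`, `f` even. -/
def T_VA3 : Prop := ∀ f : ℕ, 1 ≤ f → Even f → ∃ g u, 1 ≤ g ∧ ¬ 3 ∣ u ∧ 2 ^ f = 1 + 3 ^ g * u

/-- (STE) steering into a residue class modulo an odd number. -/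
def T_STE : Prop := ∀ ρ Q : ℕ, Odd Q → ∃ M, 1 ≤ M ∧ ∀ κ, ¬ 3 ∣ κ → ∃ E l S, ∀ z, 1 ≤ z →
  z ≡ κ [MOD M] → ∃ y, 3 ^ l * y + S = 2 ^ E * z ∧ y ≡ ρ [MOD Q] ∧ (Reach z → Reach y)

/-- (TRE) many small numbers reach `1`. -/
def T_TRE : Prop := ∀ d : ℕ, ∃ Z : Finset ℕ, Z.card = 2 ^ d ∧
  ∀ z ∈ Z, 1 ≤ z ∧ z ≤ 64 ^ d ∧ ¬ 3 ∣ z ∧ Reach z

/-- (RAO) progressions with odd difference. -/
def T_RAO : Prop := ∀ ρ Q : ℕ, Odd Q → ∃ c : ℝ, 0 < c ∧ ∃ J0 : ℕ, ∀ J ≥ J0,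
  c * (J : ℝ) ^ (1 / 6 : ℝ) ≤ (({j : ℕ | j < J ∧ Reach (ρ + Q * j)}.ncard : ℕ) : ℝ)

/-- (RAG) all progressions. -/
def T_RAG : Prop := ∀ ρ Q : ℕ, 1 ≤ Q → ∃ c : ℝ, 0 < c ∧ ∃ J0 : ℕ, ∀ J ≥ J0,
  c * (J : ℝ) ^ (1 / 6 : ℝ) ≤ (({j : ℕ | j < J ∧ Reach (ρ + Q * j)}.ncard : ℕ) : ℝ)

/-! ### The tag system -/

/-- (AFF) the history depends on `x` modulo `2^t`, and the result is affine. -/
def T_AFF : Prop := ∀ (t : ℕ) (s : Bool) (x : ℕ) (B : List (Bool × ℕ)), ∃ A : ℕ, ∀ i : ℕ,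
  nx^[t] (s, x + 2 ^ t * i, B) = ((nx^[t] (s, x, B)).1, (nx^[t] (s, x, B)).2.1 + 3 ^ A * i,
    (nx^[t] (s, x, B)).2.2)

/-- (KIL) the other blocks of `0` can be killed. -/
def T_KIL : Prop := ∀ (m r : ℕ) (s : Bool) (B : List (Bool × ℕ)), Odd m →
  ∃ n i : ℕ, ph false (nx^[n] (s, m * i + r, B)).2.2 < 1

/-- (KIC) the same in a class modulo `2^α`. -/
def T_KIC : Prop := ∀ (s : Bool) (B : List (Bool × ℕ)) (α x : ℕ),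
  ∃ t i : ℕ, α ≤ t ∧ ph false (nx^[t] (s, x + 2 ^ α * i, B)).2.2 < 1

/-- (RDC) the configurations in a progression. -/
def T_RDC : Prop := ∀ (s : Bool) (B : List (Bool × ℕ)) (α x w : ℕ), Odd w →
  ∃ i0 P ρ Q : ℕ, 1 ≤ P ∧ 1 ≤ Q ∧ ∀ j, Reach (ρ + Q * j) →
    Stops (tape (cfg (s, x + 2 ^ α * (w * (i0 + P * j)), B)))

/-- (FZ) the words `p 0^n v`. -/
def T_FZ : Prop := ∀ (p v : List (Fin 3)) (a q : ℕ), 1 ≤ q → ∃ n0 P ρ Q : ℕ, 1 ≤ P ∧ 1 ≤ Q ∧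
  ∀ j, n0 + P * j ≡ a [MOD q] ∧
    (Reach (ρ + Q * j) → Stops (p ++ replicate (n0 + P * j) 0 ++ v))

/-- (FD) the words `p (12)^n v`. -/
def T_FD : Prop := ∀ (p v : List (Fin 3)) (a q : ℕ), 1 ≤ q → ∃ n0 P ρ Q : ℕ, 1 ≤ P ∧ 1 ≤ Q ∧
  ∀ j, n0 + P * j ≡ a [MOD q] ∧
    (Reach (ρ + Q * j) → Stops (p ++ dd (n0 + P * j) ++ v))

/-- (CNA) counting. -/
def T_CNA : Prop := ∀ (F : ℕ → Prop) (a q n0 P ρ Q : ℕ), 1 ≤ P → 1 ≤ Q →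
  (∀ j, n0 + P * j ≡ a [MOD q] ∧ (Reach (ρ + Q * j) → F (n0 + P * j))) →
  ∃ N0 : ℕ, ∀ N ≥ N0,
    (N : ℝ) ^ (1 / 7 : ℝ) ≤ (({n : ℕ | n < N ∧ n ≡ a [MOD q] ∧ F n}.ncard : ℕ) : ℝ)

/-- (NSF) words on which the computation never stops. -/
def T_NSF : Prop := ∀ k x : ℕ, 7 * x + 4 = 39 * 8 ^ k →
  ¬ Stops (replicate x 0 ++ [1, 2] ++ replicate 6 0)

/-- (UPC) the sections of a context-free language are ultimately periodic. -/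
def T_UPC : Prop := ∀ (L : Language (Fin 3)) (v : List (Fin 3)), L.IsContextFree → v ≠ [] →
  ∃ P n0 : ℕ, 1 ≤ P ∧ ∀ n ≥ n0, (replicate n 0 ++ v ∈ L ↔ replicate (n + P) 0 ++ v ∈ L)

/-- (MAI) the theorem. -/
def T_MAI : Prop :=
  (∀ (p v : List (Fin 3)) (a q : ℕ), 1 ≤ q → ∃ N0 : ℕ, ∀ N ≥ N0,
    (N : ℝ) ^ (1 / 7 : ℝ) ≤
      (({n : ℕ | n < N ∧ n ≡ a [MOD q] ∧ Stops (p ++ replicate n 0 ++ v)}.ncard : ℕ) : ℝ) ∧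
    (N : ℝ) ^ (1 / 7 : ℝ) ≤
      (({n : ℕ | n < N ∧ n ≡ a [MOD q] ∧ Stops (p ++ dd n ++ v)}.ncard : ℕ) : ℝ)) ∧
  (∀ k x : ℕ, 7 * x + 4 = 39 * 8 ^ k → ¬ Stops (replicate x 0 ++ [1, 2] ++ replicate 6 0)) ∧
  ¬ Language.IsContextFree {w : List (Fin 3) | Stops w} ∧
  ¬ Language.IsContextFree {w : List (Fin 3) | ¬ Stops w}

end Pool.Agent.H70.TGS
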