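import Pool.Agent.H70.TGS.Targets

/-!
# De Mol's tag system S₂ (problem MP_c95a35_lc): cycles, exceptions, Boolean combinations of
context-free languages; targets
-/

set_option autoImplicit false

open List Pool.Agent.H68.TG

namespace Pool.Agent.H70.TGS

/-- the words `0^i (12)^j`, `(12)^j 0^i`, `2 (12)^j 0^i` and `1` -/
def Cl (w : List (Fin 3)) : Prop := ∃ i j : ℕ, w = replicate i 0 ++ dd j ∨
  w = dd j ++ replicate i 0 ∨ w = 2 :: (dd j ++ replicate i 0) ∨ w = [1]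

/-- (CLS) the class is closed. -/
def T_CLS : Prop := (∀ w, Cl w → Cl (step w)) ∧ (∀ w, Two w → Cl w) ∧
  (∀ w : List (Fin 3), w.length < 2 → Cl w) ∧
  (∀ z : List (Fin 3), ¬ Cl ([0, 0, 0, 1, 2, 1, 2, 0] ++ z)) ∧
  ∀ x, 1 ≤ x → ¬ Cl (replicate x 0 ++ [1, 2] ++ replicate 6 0)

/-- the blocks of the cycles -/
def blk (c : Bool) : List (Fin 3) :=
  if c then [0, 0, 0, 1, 2, 1, 2, 0, 0, 0, 0, 0, 1, 2, 1, 2]
  else [0, 0, 0, 1, 2, 1, 2, 0, 0, 1, 2, 1, 2, 0, 0, 0]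

/-- the words of the cycles -/
def cyw (q : List Bool) : List (Fin 3) := q.flatMap blk ++ [0, 0, 0, 1, 2, 1, 2, 0, 0]

/-- (CYC) cycles: the words `cyw q` are periodic with period `60 m + 40`, `m` the length of `q`. -/
def T_CYC : Prop := ∀ q : List Bool, step^[60 * q.length + 40] (cyw q) = cyw q

/-- (CYN) the computation on `cyw q` never reaches the class `Cl`. -/
def T_CYN : Prop := ∀ (q : List Bool) (k : ℕ), ¬ Cl (step^[k] (cyw q))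

/-- the computation on `0^x 12 0^6` never reaches the class `Cl` -/
def Gd (x : ℕ) : Prop := ∀ k, ¬ Cl (step^[k] (replicate x 0 ++ [1, 2] ++ replicate 6 0))

/-- (GNB) the exceptional numbers. -/
def T_GNB : Prop := Gd 5 ∧ (∀ x, Gd x → Gd (8 * x + 4)) ∧ ∀ m, Gd (9 * m + 8) → Gd (64 * m + 61)

/-- (TRX) many exceptional numbers. -/
def T_TRX : Prop := ∀ d : ℕ, ∃ Z : Finset ℕ, Z.card = 2 ^ d ∧ ∀ x ∈ Z, x < 312 * 2 ^ (54 * d) ∧ Gd x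

/-- (EXC) the count of exceptional numbers. -/
def T_EXC : Prop := ∃ N0 : ℕ, ∀ N ≥ N0,
  (N : ℝ) ^ (1 / 55 : ℝ) ≤ (({n : ℕ | n < N ∧ Gd n}.ncard : ℕ) : ℝ)

/-- Boolean combinations of context-free languages -/
inductive BCF : Language (Fin 3) → Prop
  | cf (L : Language (Fin 3)) : L.IsContextFree → BCF L
  | compl (L : Language (Fin 3)) : BCF L → BCF {w | w ∉ L}
  | inter (L M : Language (Fin 3)) : BCF L → BCF M → BCF {w | w ∈ L ∧ w ∈ M}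

/-- (BUP) their sections are ultimately periodic. -/
def T_BUP : Prop := ∀ (L : Language (Fin 3)) (v : List (Fin 3)), BCF L → v ≠ [] →
  ∃ P n0 : ℕ, 1 ≤ P ∧ ∀ n ≥ n0, (replicate n 0 ++ v ∈ L ↔ replicate (n + P) 0 ++ v ∈ L)

/-- (MA2) the theorem. -/
def T_MA2 : Prop :=
  (∀ (p v : List (Fin 3)) (a q : ℕ), 1 ≤ q → ∃ N0 : ℕ, ∀ N ≥ N0,
    (N : ℝ) ^ (1 / 7 : ℝ) ≤
      (({n : ℕ | n < N ∧ n ≡ a [MOD q] ∧ Stops (p ++ replicate n 0 ++ v)}.ncard : ℕ) : ℝ) ∧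
    (N : ℝ) ^ (1 / 7 : ℝ) ≤
      (({n : ℕ | n < N ∧ n ≡ a [MOD q] ∧ Stops (p ++ dd n ++ v)}.ncard : ℕ) : ℝ)) ∧
  (∀ q : List Bool, step^[60 * q.length + 40] (cyw q) = cyw q ∧
    ∀ k, 2 ≤ (step^[k] (cyw q)).length ∧ ¬ Two (step^[k] (cyw q))) ∧
  (∃ N0 : ℕ, ∀ N ≥ N0, (N : ℝ) ^ (1 / 55 : ℝ) ≤ (({n : ℕ | n < N ∧
    ∀ k, 2 ≤ (step^[k] (replicate n 0 ++ [1, 2] ++ replicate 6 0)).length ∧
      ¬ Two (step^[k] (replicate n 0 ++ [1, 2] ++ replicate 6 0))}.ncard : ℕ) : ℝ)) ∧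
  ¬ BCF {w : List (Fin 3) | Stops w}

end Pool.Agent.H70.TGS
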